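import Pool.Agent.Helper1.FF2.StmtSectors
import Pool.Agent.Helper34.FF.G1
import Pool.Agent.Helper77.FF.StmtLca

/-!
# S3: runs of sectors
-/

namespace Pool.Agent.Helper1.FF2

open Finset
open Pool.Agent.Helper34.FF hiding StmtG
open scoped symmDiff Classical

theorem sd_five {α : Type} [DecidableEq α] (A B C X E : Finset α) :
    (E ∆ (B ∆ C)) ∆ (A ∆ (X ∆ B)) = (A ∆ E) ∆ (X ∆ C) := by
  rw [symmDiff_comm X B, ← symmDiff_assoc A B X, symmDiff_comm A B, symmDiff_assoc B A X,
    symmDiff_comm B C, ← symmDiff_assoc E C B, symmDiff_assoc (E ∆ C) B, symmDiff_symmDiff_cancel_left,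
    symmDiff_comm X C, ← symmDiff_assoc (A ∆ E) C X, symmDiff_assoc A E C,
    ← symmDiff_assoc (E ∆ C) A X, symmDiff_comm (E ∆ C) A]

theorem pf_StmtRun (hLca : StmtLca) : StmtRun := by
  intro V F _ _ T hT E l c Ω u P U hE hΩ hP hR huE hU hUE hUd i j hij hjl hk
  obtain ⟨aS, aC, -, -, -, -, -⟩ := pAlg V F T
  have hl := hE.three
  have hEF := pEnumFacts V F T hT E l c hE
  have hVbd := hEF.2.2.2.1
  have harc := hEF.2.2.2.2.2.1
  have hempty : T.bdry (∅ : Finset F) = ∅ := by
    have h := aS ∅ ∅
    rw [symmDiff_self, symmDiff_self] at h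
    exact h
  have key : ∀ n : ℕ, (n : ℤ) < l →
      T.bdry ((Ico i (i + n)).biUnion U) =
        arcE c i (i + n) ∆ (tE Ω u P (c i) ∆ tE Ω u P (c (i + n))) := by
    intro n
    induction n with
    | zero =>
      intro _
      simp only [Nat.cast_zero, add_zero, Ico_self, biUnion_empty, hempty, symmDiff_self, arcE,
        image_empty]
      ext e
      simp
    | succ n ih =>
      intro hn
      have ih' := ih (by push_cast at hn; omega)
      have h1 : Ico i (i + ((n + 1 : ℕ) : ℤ)) = insert (i + n) (Ico i (i + n)) := by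
        ext t
        simp only [mem_insert, mem_Ico]
        push_cast
        omega
      have h2 : (Ico i (i + ((n + 1 : ℕ) : ℤ))).biUnion U =
          U (i + n) ∆ (Ico i (i + n)).biUnion U := by
        rw [h1, biUnion_insert]
        symm
        apply Disjoint.symmDiff_eq_sup
        rw [disjoint_biUnion_right]
        intro t ht
        rw [mem_Ico] at ht
        apply hUd
        intro hd
        have := Int.le_of_dvd (by omega) hd
        push_cast at hn
        omega
      have h3 : arcE c i (i + ((n + 1 : ℕ) : ℤ)) =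
          arcE c i (i + n) ∆ {s(c (i + n), c (i + n + 1))} := by
        have h4 : s(c (i + n), c (i + n + 1)) ∉ arcE c i (i + n) := by
          intro hcon
          have h5 := (harc i (i + n) (by omega) (by push_cast at hn; omega)).2.2.2
          refine Finset.disjoint_left.1 h5 hcon ?_
          unfold arcE
          exact mem_image.2 ⟨i + n, mem_Ico.2 ⟨le_rfl, by push_cast at hn; omega⟩, rfl⟩
        unfold arcE at h4 ⊢
        rw [h1, image_insert]
        ext e
        simp only [mem_insert, Finset.mem_symmDiff, mem_singleton]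
        constructor
        · rintro (h | h)
          · subst h
            exact Or.inr ⟨rfl, h4⟩
          · refine Or.inl ⟨h, fun h6 => h4 ?_⟩
            rw [← h6]; exact h
        · rintro (⟨h, -⟩ | ⟨h, -⟩)
          · exact Or.inr h
          · exact Or.inl h
      rw [h2, aS, ih', hU, h3]
      have h7 : i + ((n + 1 : ℕ) : ℤ) = i + n + 1 := by push_cast; ring
      rw [h7]
      exact sd_five _ _ _ _ _
  obtain ⟨n, hn⟩ := Int.eq_ofNat_of_zero_le (by omega : 0 ≤ j - i)
  have hj : j = i + n := by omega
  have hbd := key n (by omega)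
  rw [← hj] at hbd
  obtain ⟨a, ha1, ha2, ha3, ha4, ha5, ha6⟩ := hLca V Ω u P hP (c i) (c j) (hR i) (hR j)
  have hpos : ∀ k, 1 ≤ Ω.dist u (c k) := by
    intro k
    rw [Nat.one_le_iff_ne_zero]
    intro h0
    have h1 := (hR k).dist_eq_zero_iff.1 h0
    exact huE ((hVbd _).2 ⟨k, h1⟩)
  have hchain : ∀ m : ℕ, (m : ℤ) ≤ n → P (c i) 1 = P (c (i + m)) 1 := by
    intro m
    induction m with
    | zero => intro _; simp
    | succ m ih =>
      intro hm
      have h1 := ih (by push_cast at hm; omega)
      rw [h1, hk (i + m) (by omega) (by push_cast at hm; omega)]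
      congr 2
      push_cast
      ring
  have h1 := hchain n le_rfl
  rw [← hj] at h1
  have ha : 1 ≤ a := (ha3 1 (hpos i) (hpos j)).1 h1
  refine ⟨a, ha, ha1, ha2, (ha3 a ha1 ha2).2 le_rfl, ?_, ?_⟩
  · rw [hbd, ha4]
  · rw [disjoint_biUnion_left]
    intro t _
    exact hUE t

end Pool.Agent.Helper1.FF2
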