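import Pool.Agent.Helper34.FF.Goals2

/-!
# Second batch of statements: trees, sectors, the branch lemma (MP_7cb822_co)
-/

namespace Pool.Agent.Helper1.FF2

open Finset
open Pool.Agent.Helper34.FF hiding StmtG
open scoped symmDiff Classical

/-- All vertices of the faces in `S`. -/
noncomputable def Vcl {V F : Type} [Fintype V] [Fintype F] (T : Tri V F) (S : Finset F) :
    Finset V :=
  univ.filter fun v => ∃ f ∈ S, v ∈ T.tri f

/-- A breadth first search tree of `H` with root `u`: `P x j` is the vertex at depth `j` of the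
tree path from `u` to `x`. -/
structure IsTree {V : Type} (H : SimpleGraph V) (u : V) (P : V → ℕ → V) : Prop where
  walk : ∀ x, H.Reachable u x → IsW H (H.dist u x) (P x) u x
  depth : ∀ x, H.Reachable u x → ∀ j ≤ H.dist u x, H.dist u (P x j) = j
  coh : ∀ x y, H.Reachable u x → H.Reachable u y → ∀ j, j ≤ H.dist u x → j ≤ H.dist u y →
    P x j = P y j → ∀ i ≤ j, P x i = P y i

/-- The edge set of the tree path from `u` to `x`. -/
noncomputable def tE {V : Type} (H : SimpleGraph V) (u : V) (P : V → ℕ → V) (x : V) :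
    Finset (Sym2 V) :=
  wE (H.dist u x) (P x)

/-- L1. Breadth first search trees exist. -/
def StmtTree : Prop := ∀ (V : Type) [Fintype V] (H : SimpleGraph V) (u : V), ∃ P, IsTree H u P

/-- L2. Trees are acyclic. -/
def StmtAcyc : Prop := ∀ (V : Type) [Fintype V] (H : SimpleGraph V) (u : V) (P : V → ℕ → V),
  IsTree H u P → ∀ Z : Finset (Sym2 V), EvenSet Z →
    (∀ e ∈ Z, ∃ x, H.Reachable u x ∧ e ∈ tE H u P x) → Z = ∅

/-- L3. The symmetric difference of two tree paths. -/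
def StmtLca : Prop := ∀ (V : Type) [Fintype V] (H : SimpleGraph V) (u : V) (P : V → ℕ → V),
  IsTree H u P → ∀ x y, H.Reachable u x → H.Reachable u y →
    ∃ a, a ≤ H.dist u x ∧ a ≤ H.dist u y ∧
      (∀ i, i ≤ H.dist u x → i ≤ H.dist u y → (P x i = P y i ↔ i ≤ a)) ∧
      tE H u P x ∆ tE H u P y =
        wE (H.dist u x - a) (fun t => P x (a + t)) ∪ wE (H.dist u y - a) (fun t => P y (a + t)) ∧
      (tE H u P x ∆ tE H u P y).card + 2 * a = H.dist u x + H.dist u y ∧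
      (∀ v, Odd ((tE H u P x ∆ tE H u P y).filter fun e => v ∈ e).card ↔
        (x ≠ y ∧ (v = x ∨ v = y)))

/-- S1. Existence and disjointness of the sectors around the bond `E`. -/
def StmtSec : Prop := ∀ (V F : Type) [Fintype V] [Fintype F] (T : Tri V F), T.Sphere →
  ∀ (E : Finset F) (l : ℕ) (c : ℤ → V) (Ω : SimpleGraph V) (u : V) (P : V → ℕ → V),
    T.Enum E l c → Ω ≤ T.G → (∀ e ∈ T.inn E, e ∉ Ω.edgeSet) → IsTree Ω u P →
    (∀ i, Ω.Reachable u (c i)) →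
    ∃ U : ℤ → Finset F,
      (∀ i, U (i + l) = U i) ∧
      (∀ i, T.bdry (U i) = {s(c i, c (i + 1))} ∆ (tE Ω u P (c i) ∆ tE Ω u P (c (i + 1)))) ∧
      (∀ i, Disjoint (U i) E) ∧
      (∀ i j, ¬ (l : ℤ) ∣ i - j → Disjoint (U i) (U j)) ∧
      (∀ g, g ∉ E → ∃ i, g ∈ U i) ∧
      (∀ i, U i = ∅ ∨ T.Bond (U i))

/-- S2. The sectors with the depths `α i` of the branch vertices. -/
def StmtSecAlpha : Prop := ∀ (V F : Type) [Fintype V] [Fintype F] (T : Tri V F), T.Sphere →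
  ∀ (E : Finset F) (l : ℕ) (c : ℤ → V) (Ω : SimpleGraph V) (u : V) (P : V → ℕ → V)
    (U : ℤ → Finset F),
    T.Enum E l c → IsTree Ω u P → (∀ i, Ω.Reachable u (c i)) → u ∉ T.Vbd E →
    (∀ i, U (i + l) = U i) →
    (∀ i, T.bdry (U i) = {s(c i, c (i + 1))} ∆ (tE Ω u P (c i) ∆ tE Ω u P (c (i + 1)))) →
    ∃ α : ℤ → ℕ,
      (∀ i, α (i + l) = α i) ∧
      (∀ i, T.len (U i) + 2 * α i ≤ Ω.dist u (c i) + Ω.dist u (c (i + 1)) + 1) ∧
      (∀ i, α i = 0 ↔ u ∈ T.Vbd (U i)) ∧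
      (∀ i, α i ≠ 0 ↔ P (c i) 1 = P (c (i + 1)) 1)

/-- S3. Runs of sectors with `α ≠ 0`: the data of the branch lemma. -/
def StmtRun : Prop := ∀ (V F : Type) [Fintype V] [Fintype F] (T : Tri V F), T.Sphere →
  ∀ (E : Finset F) (l : ℕ) (c : ℤ → V) (Ω : SimpleGraph V) (u : V) (P : V → ℕ → V)
    (U : ℤ → Finset F),
    T.Enum E l c → Ω ≤ T.G → IsTree Ω u P → (∀ i, Ω.Reachable u (c i)) → u ∉ T.Vbd E →
    (∀ i, T.bdry (U i) = {s(c i, c (i + 1))} ∆ (tE Ω u P (c i) ∆ tE Ω u P (c (i + 1)))) →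
    (∀ i, Disjoint (U i) E) →
    (∀ i j, ¬ (l : ℤ) ∣ i - j → Disjoint (U i) (U j)) →
    ∀ i j : ℤ, i < j → j < i + l → (∀ k, i ≤ k → k < j → P (c k) 1 = P (c (k + 1)) 1) →
    ∃ a, 1 ≤ a ∧ a ≤ Ω.dist u (c i) ∧ a ≤ Ω.dist u (c j) ∧ P (c i) a = P (c j) a ∧
      T.bdry ((Ico i j).biUnion U) = arcE c i j ∆
        (wE (Ω.dist u (c i) - a) (fun t => P (c i) (a + t)) ∪
          wE (Ω.dist u (c j) - a) (fun t => P (c j) (a + t))) ∧
      Disjoint ((Ico i j).biUnion U) E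

/-- G0. Rerouting inside a subgraph which contains the boundaries of the obstacles. -/
def StmtAvoidIn : Prop := ∀ (V F : Type) [Fintype V] [Fintype F] (T : Tri V F), T.Sphere →
  ∀ (Ds : Finset (Finset F)) (H : SimpleGraph V), T.Obst Ds → H ≤ T.G →
    (∀ X ∈ Ds, ∀ e ∈ T.bdry X, e ∈ H.edgeSet) →
    ∀ t u v, (∀ X ∈ Ds, u ∉ T.Vin X) → (∀ X ∈ Ds, v ∉ T.Vin X) →
      Within H t u v → Within (H ⊓ T.avoid Ds) t u v

/-- G1. Leaving the closed side of `E` and the obstacles: reachability and distances in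
`Ω = T.avoid (insert E Ds)`. -/
def StmtReach : Prop := ∀ (V F : Type) [Fintype V] [Fintype F] (T : Tri V F), T.Sphere →
  ∀ (E : Finset F) (l : ℕ) (c : ℤ → V) (Ds : Finset (Finset F)) (u : V),
    T.Enum E l c → T.Obst Ds → (∀ X ∈ Ds, Disjoint X E) → u ∈ T.Vin Eᶜ →
    (∀ X ∈ Ds, u ∉ T.Vin X) →
    (∀ i, (T.avoid (insert E Ds)).Reachable u (c i)) ∧
    (∀ i, (T.avoid (insert E Ds)).dist u (c i) ≤ (T.avoid (insert E Ds)).dist u (c (i + 1)) + 1) ∧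
    (∀ i, (T.avoid (insert E Ds)).dist u (c (i + 1)) ≤ (T.avoid (insert E Ds)).dist u (c i) + 1) ∧
    (∀ i t, Hits T.G (T.Vbd E) u t (c i) → (T.avoid (insert E Ds)).dist u (c i) ≤ t) ∧
    (T.Iso E l c → ∀ x, (∀ X ∈ insert E Ds, x ∉ T.Vin X) →
      (T.avoid (insert E Ds)).Reachable u x ∧
      (T.avoid (insert E Ds)).dist u x = T.G.dist u x)

/-- G2. Lemma (G): for a bad vertex `f i + f (i + 1) < l` on every edge of the boundary. -/
def StmtG : Prop := ∀ (V F : Type) [Fintype V] [Fintype F] (T : Tri V F), T.Sphere →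
  ∀ (e l : ℕ) (E : Finset F) (c : ℤ → V) (u : V) (f : ℤ → ℕ),
    T.Enum E l c → u ∈ T.Vin Eᶜ → (∀ i, f (i + l) = f i) → (∀ i, f i ≤ f (i + 1) + 1) →
    (∀ i, f (i + 1) ≤ f i + 1) → (∀ i t, Hits T.G (T.Vbd E) u t (c i) → f i ≤ t) →
    Bad T.G e u → e ≤ (Vcl T E).card → ∀ i, f i + f (i + 1) < l

/-- B1. The branch lemma (wedge lemma): `E` is isometric, `R`, `L` are the two tree paths from the
branch vertex at depth `a ≥ 1` to `c i` and `c j`, `Y` is the face set between them and the arc. -/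
def StmtBranch : Prop := ∀ (V F : Type) [Fintype V] [Fintype F] (T : Tri V F), T.Sphere →
  ∀ (e l : ℕ) (E Y : Finset F) (c : ℤ → V) (u : V) (i j : ℤ) (a : ℕ) (R L : ℕ → V),
    T.Iso E l c → u ∈ T.Vin Eᶜ → u ∈ T.Vin Yᶜ → Bad T.G e u → i < j → j < i + l → 1 ≤ a →
    a ≤ T.G.dist u (c i) → a ≤ T.G.dist u (c j) → R 0 = L 0 →
    R (T.G.dist u (c i) - a) = c i → L (T.G.dist u (c j) - a) = c j →
    (∀ t ≤ T.G.dist u (c i) - a, T.G.dist u (R t) = a + t) →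
    (∀ t ≤ T.G.dist u (c j) - a, T.G.dist u (L t) = a + t) →
    Disjoint Y E →
    T.bdry Y = arcE c i j ∆ (wE (T.G.dist u (c i) - a) R ∪ wE (T.G.dist u (c j) - a) L) →
    (Vcl T Y).card < e

/-- B2. Counting: the union of the sectors with `α ≠ 0`. -/
def StmtRest : Prop := ∀ (V F : Type) [Fintype V] [Fintype F] (T : Tri V F), T.Sphere →
  ∀ (e l : ℕ) (E : Finset F) (u : V) (U : ℤ → Finset F) (α : ℤ → ℕ), 1 ≤ l →
    u ∈ T.Vin Eᶜ → (∀ i, U (i + l) = U i) → (∀ i, α (i + l) = α i) →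
    (∀ i, Disjoint (U i) E) → (∀ i j, ¬ (l : ℤ) ∣ i - j → Disjoint (U i) (U j)) →
    (∀ g, g ∉ E → ∃ i, g ∈ U i) → (∀ i, α i = 0 ↔ u ∈ T.Vbd (U i)) →
    (∀ i j : ℤ, i < j → j < i + l → (∀ k, i ≤ k → k < j → α k ≠ 0) →
      u ∈ T.Vin ((Ico i j).biUnion U)ᶜ → (Vcl T ((Ico i j).biUnion U)).card < e) →
    ((Ico (0 : ℤ) l).filter fun i => α i = 0).card ≤ (univ.filter fun f => u ∈ T.tri f).card ∧
    ((∃ i, α i = 0) →
      (Vcl T (((Ico (0 : ℤ) l).filter fun i => α i ≠ 0).biUnion U)).card ≤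
        (univ.filter fun f => u ∈ T.tri f).card * e) ∧
    ((∀ i, α i ≠ 0) → ∃ i₀, u ∈ T.Vin (U i₀) ∧ (Vcl T (Eᶜ \ U i₀)).card ≤ e)

/-- SECTORS. The final interface: the sectors `U i` around `E` seen from a bad vertex `u`, with
obstacles `Ds`. -/
def StmtSectors : Prop := ∀ (V F : Type) [Fintype V] [Fintype F] (T : Tri V F), T.Sphere →
  ∀ (e l : ℕ) (E : Finset F) (c : ℤ → V) (Ds : Finset (Finset F)) (u : V),
    T.Enum E l c → T.Obst Ds → (∀ X ∈ Ds, Disjoint X E) → u ∈ T.Vin Eᶜ →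
    (∀ X ∈ Ds, u ∉ T.Vin X) → Bad T.G e u → e ≤ (Vcl T E).card →
    ∃ (U : ℤ → Finset F) (α : ℤ → ℕ),
      (∀ i, U (i + l) = U i) ∧ (∀ i, α (i + l) = α i) ∧
      (∀ i, Disjoint (U i) E) ∧
      (∀ i j, ¬ (l : ℤ) ∣ i - j → Disjoint (U i) (U j)) ∧
      (∀ g, g ∉ E → ∃ i, g ∈ U i) ∧
      (∀ i, U i = ∅ ∨ T.Bond (U i)) ∧
      (∀ i, T.len (U i) + 2 * α i ≤ l) ∧
      (∀ i, α i = 0 ↔ u ∈ T.Vbd (U i)) ∧
      (∀ X ∈ Ds, ∀ i, X ⊆ U i ∨ Disjoint X (U i)) ∧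
      ((Ico (0 : ℤ) l).filter fun i => α i = 0).card ≤ (univ.filter fun f => u ∈ T.tri f).card ∧
      (T.Iso E l c →
        ((∃ i, α i = 0) →
          (Vcl T (((Ico (0 : ℤ) l).filter fun i => α i ≠ 0).biUnion U)).card ≤
            (univ.filter fun f => u ∈ T.tri f).card * e) ∧
        ((∀ i, α i ≠ 0) → ∃ i₀, u ∈ T.Vin (U i₀) ∧ (Vcl T (Eᶜ \ U i₀)).card ≤ e))

/-- D1. The number of faces at a vertex is its degree. -/
def StmtFaceDeg : Prop := ∀ (V F : Type) [Fintype V] [Fintype F] (T : Tri V F) (u : V),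
  (univ.filter fun f => u ∈ T.tri f).card = (univ.filter fun v => T.G.Adj u v).card

/-- D2. CUT, THIN: a cut through `u`, with a light difference if `E` is isometric. -/
def StmtThin : Prop := ∀ (V F : Type) [Fintype V] [Fintype F] (T : Tri V F), T.Sphere →
  ∀ (L : Finset V) (e l κ : ℕ) (E D : Finset F) (c : ℤ → V) (u : V),
    T.BadSet L e → u ∈ L → T.Iso E l c → T.Bond D → T.IN D → Disjoint E D →
    u ∈ T.Vin Eᶜ → u ∈ T.Vin Dᶜ → e ≤ (T.Vin E).card →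
    (∀ Y, E ⊆ Y → Disjoint Y D → l ≤ T.len Y) →
    (∀ U, T.Bond U → Disjoint U E → Disjoint U D → u ∈ T.Vbd U → T.len U ≤ l →
      T.m L U ≤ κ) →
    ∃ Y, E ⊆ Y ∧ Disjoint Y D ∧ T.Bond Y ∧ T.len Y = l ∧ u ∈ T.Vbd Y ∧
      T.m L (Y \ E) ≤ 11 * (e + κ + l)

/-- D3. SHRINK. -/
def StmtShrink : Prop := ∀ (V F : Type) [Fintype V] [Fintype F] (T : Tri V F), T.Sphere →
  ∀ (L : Finset V) (e l : ℕ) (Y : Finset F) (c : ℤ → V) (u : V),
    T.BadSet L e → u ∈ L → T.Iso Yᶜ l c → u ∈ T.Vin Y → e ≤ (T.Vin Yᶜ).card →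
    ∃ X, X ⊆ Y ∧ X ≠ Y ∧ T.Bond X ∧ T.len X ≤ l ∧ T.m L Y ≤ 11 * (T.m L X + e + l)

end Pool.Agent.Helper1.FF2
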