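import Pool.Agent.Helper1.FF2.StmtThin
import Pool.Agent.Helper22.FF.StmtAlg
import Pool.Agent.Helper23.FF.StmtEnum
import Pool.Agent.Helper32.FF.StmtAvoid
import Pool.Agent.Helper52.FF.StmtEnumFacts
import Pool.Agent.Helper7.FF.StmtIso
import Pool.Agent.Helper75.FF.StmtTri
import Pool.Agent.Helper75.FF.StmtAcyc
import Pool.Agent.Helper89.FF.StmtNoCut
import Pool.Agent.Helper90.FF.StmtBond
import Pool.Agent.Helper90.FF.StmtPar
import Pool.Agent.Helper90.FF.StmtTree
import Pool.Agent.Helper68.FF.StmtAvoidIn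
import Pool.Agent.Helper67.FF.StmtBranch
import Pool.Agent.Helper17.FF.StmtSecAlpha
import Pool.Agent.Helper54.FF.StmtG
import Pool.Agent.Helper48.FF.StmtRest
import Pool.Agent.Helper43.FF.StmtSec
import Pool.Agent.Helper97.FF.StmtReach
import Pool.Agent.Helper77.FF.StmtLca
import Pool.Agent.Helper9.FF.StmtFaceDeg
import Pool.Agent.Helper1.FF2.StmtRun

/-!
# The sector interface, unconditionally
-/

namespace Pool.Agent.Helper1.FF2

open Pool.Agent.Helper34.FF (StmtAlg StmtNoCut StmtBond StmtEnumFacts StmtEnum StmtTri StmtIso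
  StmtAvoid)

theorem alg : StmtAlg := Pool.Agent.Helper22.FF.pf_StmtAlg

theorem noCut : StmtNoCut := Pool.Agent.Helper89.FF.pf_StmtNoCut

theorem tri : StmtTri := Pool.Agent.Helper75.FF.pf_StmtTri

theorem bond : StmtBond := Pool.Agent.Helper90.FF.pf_StmtBond alg noCut

theorem enum : StmtEnum := Pool.Agent.Helper23.FF.pf_StmtEnum alg bond

theorem enumFacts : StmtEnumFacts := Helper52FF.pf_StmtEnumFacts alg bond

theorem iso : StmtIso := Pool.Agent.Helper7.FF.pf_StmtIso alg enumFacts

theorem avoid : StmtAvoid := Pool.Agent.Helper32.FF.pf_StmtAvoid alg tri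

theorem avoidIn : StmtAvoidIn := Pool.Agent.Helper68.FF.pf_StmtAvoidIn alg tri

theorem lca : StmtLca := Pool.Agent.Helper77.FF.pf_StmtLca

theorem acyc : StmtAcyc := Pool.Agent.Helper75.FF.pf_StmtAcyc

theorem faceDeg : StmtFaceDeg := Pool.Agent.Helper9.FF.pf_StmtFaceDeg

theorem reach : StmtReach :=
  Pool.Agent.Helper97.FF.pf_StmtReach alg tri enumFacts iso avoid avoidIn

theorem sec : StmtSec := Pool.Agent.Helper43.FF.pf_StmtSec lca acyc

theorem secAlpha : StmtSecAlpha := Pool.Agent.Helper17.FF.pf_StmtSecAlpha lca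

/-- The sector interface. -/
theorem sectors : StmtSectors :=
  pf_StmtSectors Pool.Agent.Helper90.FF.pf_StmtTree sec secAlpha
    (pf_StmtRun lca) reach Pool.Agent.Helper54.FF.pf_StmtG
    Helper67.FF.pf_StmtBranch Pool.Agent.Helper48.FF.pf_StmtRest alg noCut tri enumFacts

/-- helper34's StmtCut. -/
theorem cut : Pool.Agent.Helper34.FF.StmtCut := pf_StmtCut sectors alg tri enum

end Pool.Agent.Helper1.FF2
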