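import Mathlib

/-!
# The counting lemma of the endgame
-/

namespace Pool.Agent.Helper1.FF2

open Finset

open scoped Classical in
/-- If every compatible triple of distinct points of `U` has a middle point in a light set
`N x z`, then `U` is small. -/
theorem count_lemma {V : Type} (U : Finset V) (R : V → Finset V) (N : V → V → Finset V)
    (M μ : ℕ) (hN : ∀ x z, N x z = N z x) (hR : ∀ v ∈ U, (U ∩ R v).card ≤ M)
    (h : ∀ x ∈ U, ∀ y ∈ U, ∀ z ∈ U, x ≠ y → y ≠ z → x ≠ z →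
      x ∉ R y → y ∉ R x → y ∉ R z → z ∉ R y → x ∉ R z → z ∉ R x →
      (y ∈ N x z ∧ (U ∩ N x z).card ≤ μ) ∨ (x ∈ N y z ∧ (U ∩ N y z).card ≤ μ) ∨
        (z ∈ N x y ∧ (U ∩ N x y).card ≤ μ)) :
    U.card ≤ 3 + 6 * M + 3 * μ := by
  -- pairs
  set P := U ×ˢ U with hP
  have hPc : P.card = U.card * U.card := Finset.card_product _ _
  set T := U ×ˢ P with hT
  have hTc : T.card = U.card * (U.card * U.card) := by
    rw [hT, Finset.card_product, hPc]
  -- a general bound
  have gen : ∀ (S : V → V → Finset V) (m : ℕ), (∀ a ∈ U, ∀ b ∈ U, (S a b).card ≤ m) →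
      (P.sigma (fun p => S p.1 p.2)).card ≤ U.card * U.card * m := by
    intro S m hS
    rw [Finset.card_sigma, ← hPc]
    refine (Finset.sum_le_card_nsmul _ _ _ ?_).trans (by rw [smul_eq_mul])
    intro p hp
    rw [hP, mem_product] at hp
    exact hS p.1 hp.1 p.2 hp.2
  -- the bad classes, with `w` the counted point over the pair `(a, b)`
  set S1 : V → V → Finset V := fun a b => {a, b} with hS1
  set S2 : V → V → Finset V := fun a b => (U ∩ R a) ∪ (U ∩ R b) with hS2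
  set S3 : V → V → Finset V := fun a b => if (U ∩ N a b).card ≤ μ then U ∩ N a b else ∅ with hS3
  have hc2 : ∀ a ∈ U, ∀ b ∈ U, (S2 a b).card ≤ 2 * M := by
    intro a ha b hb
    refine (Finset.card_union_le _ _).trans ?_
    have := hR a ha
    have := hR b hb
    omega
  have hc3 : ∀ a ∈ U, ∀ b ∈ U, (S3 a b).card ≤ μ := by
    intro a _ b _
    simp only [hS3]
    split_ifs with h1
    · exact h1
    · simp
  -- images of the classes in the set of triples
  set f1 : (Σ _ : V × V, V) → V × (V × V) := fun q => (q.2, (q.1.1, q.1.2))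
  set f2 : (Σ _ : V × V, V) → V × (V × V) := fun q => (q.1.1, (q.2, q.1.2))
  set f3 : (Σ _ : V × V, V) → V × (V × V) := fun q => (q.1.1, (q.1.2, q.2))
  set S4 : V → V → Finset V := fun a _ => {a} with hS4
  have hsub : T ⊆ ((P.sigma (fun p => S4 p.1 p.2)).image f1 ∪
      (P.sigma (fun p => S4 p.1 p.2)).image f3 ∪
      (P.sigma (fun p => S4 p.2 p.1)).image f2) ∪
      ((P.sigma (fun p => S2 p.1 p.2)).image f1 ∪ (P.sigma (fun p => S2 p.1 p.2)).image f2 ∪
      (P.sigma (fun p => S2 p.1 p.2)).image f3) ∪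
      ((P.sigma (fun p => S3 p.1 p.2)).image f1 ∪ (P.sigma (fun p => S3 p.1 p.2)).image f2 ∪
      (P.sigma (fun p => S3 p.1 p.2)).image f3) := by
    rintro ⟨x, y, z⟩ hxyz
    rw [hT, hP, mem_product, mem_product] at hxyz
    obtain ⟨hx, hy, hz⟩ := hxyz
    simp only [mem_union, mem_image, mem_sigma]
    have hPm : ∀ a b, a ∈ U → b ∈ U → (a, b) ∈ P := fun a b ha hb => by
      rw [hP]; exact mem_product.2 ⟨ha, hb⟩
    by_cases h1 : x = y
    · subst h1
      exact Or.inl (Or.inl (Or.inl (Or.inl ⟨⟨(x, z), x⟩, ⟨hPm _ _ hx hz, by simp [hS4]⟩, rfl⟩)))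
    by_cases h2 : x = z
    · subst h2
      exact Or.inl (Or.inl (Or.inl (Or.inr ⟨⟨(x, y), x⟩, ⟨hPm _ _ hx hy, by simp [hS4]⟩, rfl⟩)))
    by_cases h3 : y = z
    · subst h3
      exact Or.inl (Or.inl (Or.inr ⟨⟨(x, y), y⟩, ⟨hPm _ _ hx hy, by simp [hS4]⟩, rfl⟩))
    by_cases h4 : x ∈ R y ∨ x ∈ R z
    · refine Or.inl (Or.inr (Or.inl (Or.inl ⟨⟨(y, z), x⟩, ⟨hPm _ _ hy hz, ?_⟩, rfl⟩)))
      simp only [hS2, mem_union, mem_inter]
      tauto
    by_cases h5 : y ∈ R x ∨ y ∈ R z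
    · refine Or.inl (Or.inr (Or.inl (Or.inr ⟨⟨(x, z), y⟩, ⟨hPm _ _ hx hz, ?_⟩, rfl⟩)))
      simp only [hS2, mem_union, mem_inter]
      tauto
    by_cases h6 : z ∈ R x ∨ z ∈ R y
    · refine Or.inl (Or.inr (Or.inr ⟨⟨(x, y), z⟩, ⟨hPm _ _ hx hy, ?_⟩, rfl⟩))
      simp only [hS2, mem_union, mem_inter]
      tauto
    push Not at h4 h5 h6
    rcases h x hx y hy z hz h1 h3 h2 h4.1 h5.1 h5.2 h6.2 h4.2 h6.1 with h7 | h7 | h7
    · refine Or.inr (Or.inl (Or.inr ⟨⟨(x, z), y⟩, ⟨hPm _ _ hx hz, ?_⟩, rfl⟩))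
      simp only [hS3]
      rw [if_pos h7.2]
      exact mem_inter.2 ⟨hy, h7.1⟩
    · refine Or.inr (Or.inl (Or.inl ⟨⟨(y, z), x⟩, ⟨hPm _ _ hy hz, ?_⟩, rfl⟩))
      simp only [hS3]
      rw [if_pos h7.2]
      exact mem_inter.2 ⟨hx, h7.1⟩
    · refine Or.inr (Or.inr ⟨⟨(x, y), z⟩, ⟨hPm _ _ hx hy, ?_⟩, rfl⟩)
      simp only [hS3]
      rw [if_pos h7.2]
      exact mem_inter.2 ⟨hz, h7.1⟩
  have hcard := Finset.card_le_card hsub
  rw [hTc] at hcard
  have g4 := gen (fun a b => S4 a b) 1 (by intro a _ b _; simp [hS4])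
  have g4' := gen (fun a b => S4 b a) 1 (by intro a _ b _; simp [hS4])
  have g2 := gen S2 (2 * M) hc2
  have g3 := gen S3 μ hc3
  have im : ∀ (X : Finset (Σ _ : V × V, V)) (f : (Σ _ : V × V, V) → V × (V × V)),
      (X.image f).card ≤ X.card := fun X f => Finset.card_image_le
  have hfin : U.card * (U.card * U.card) ≤ U.card * U.card * (3 + 6 * M + 3 * μ) := by
    refine hcard.trans ?_
    refine (Finset.card_union_le _ _).trans ?_
    refine (Nat.add_le_add ((Finset.card_union_le _ _).trans (Nat.add_le_add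
      ((Finset.card_union_le _ _).trans (Nat.add_le_add (Finset.card_union_le _ _) le_rfl))
      ((Finset.card_union_le _ _).trans (Nat.add_le_add (Finset.card_union_le _ _) le_rfl))))
      ((Finset.card_union_le _ _).trans (Nat.add_le_add (Finset.card_union_le _ _) le_rfl))).trans
      ?_
    have a1 := im (P.sigma (fun p => S4 p.1 p.2)) f1
    have a2 := im (P.sigma (fun p => S4 p.1 p.2)) f3
    have a3 := im (P.sigma (fun p => S4 p.2 p.1)) f2
    have a4 := im (P.sigma (fun p => S2 p.1 p.2)) f1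
    have a5 := im (P.sigma (fun p => S2 p.1 p.2)) f2
    have a6 := im (P.sigma (fun p => S2 p.1 p.2)) f3
    have a7 := im (P.sigma (fun p => S3 p.1 p.2)) f1
    have a8 := im (P.sigma (fun p => S3 p.1 p.2)) f2
    have a9 := im (P.sigma (fun p => S3 p.1 p.2)) f3
    have e1 : U.card * U.card * (3 + 6 * M + 3 * μ) =
        3 * (U.card * U.card * 1) + 3 * (U.card * U.card * (2 * M)) +
          3 * (U.card * U.card * μ) := by ring
    rw [e1]
    omega
  rcases Nat.eq_zero_or_pos U.card with h0 | h0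
  · omega
  · have h1 : U.card * U.card * U.card ≤ U.card * U.card * (3 + 6 * M + 3 * μ) := by
      rw [mul_assoc]; exact hfin
    exact Nat.le_of_mul_le_mul_left h1 (Nat.mul_pos h0 h0)

end Pool.Agent.Helper1.FF2
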