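import Pool.Agent.Helper34.FF.Goals2
import Pool.Agent.Helper28.PL.Goals

/-!
# Final assembly: from the main inequality to the surviving rate
-/

namespace Pool.Agent.Helper1.FF2

open Finset
open Pool.Agent.Helper34.FF
open scoped symmDiff Classical

/-- The main inequality. -/
def StmtMain : Prop := ∀ (V F : Type) [Fintype V] [Fintype F] (T : Tri V F), T.Sphere →
  ∀ (L : Finset V) (e r : ℕ) (o : V), 1 ≤ e → T.BadSet L e → (∀ v, Within T.G r o v) →
    L.card ≤ 10000000 * (e + 2 * r + 1)

/-- The final statement. -/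
def StmtFinal : Prop :=
  ∃ ε : ℝ, 0 < ε ∧ ∀ (V : Type) [Fintype V] (G : SimpleGraph V), 2 ≤ Fintype.card V →
    Helper28.PL.Planar G → ε < rho 2 G

theorem within_of_dist {V : Type} {G : SimpleGraph V} (hG : G.Connected) {o v : V} {r : ℕ}
    (h : G.dist o v ≤ r) : Within G r o v := by
  obtain ⟨p, hp⟩ := hG.exists_walk_length_eq_dist o v
  refine ⟨p.length, by omega, p.getVert, by simp, by simp, ?_⟩
  intro i hi
  exact p.adj_getVert_succ hi

section

variable {V F : Type} [Fintype V] [Fintype F]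

theorem sum_deg (G : SimpleGraph V) :
    ∑ v : V, (univ.filter fun w => G.Adj v w).card =
      2 * (univ.filter fun e : Sym2 V => e ∈ G.edgeSet).card := by
  have h1 := G.sum_degrees_eq_twice_card_edges
  have h2 : ∀ v, G.degree v = (univ.filter fun w => G.Adj v w).card := by
    intro v
    rw [← SimpleGraph.card_neighborFinset_eq_degree]
    congr 1
    ext w
    simp
  have h3 : G.edgeFinset = (univ.filter fun e : Sym2 V => e ∈ G.edgeSet) := by
    ext e
    simp
  rw [← h3, ← h1]
  exact Finset.sum_congr rfl (fun v _ => (h2 v).symm)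

theorem low_degree (T : Tri V F) (hT : T.Sphere) :
    Fintype.card V ≤ 2 * (univ.filter fun u : V => (univ.filter fun w => T.G.Adj u w).card ≤ 11).card
    := by
  have h1 := sum_deg T.G
  have h2 := hT.edges
  have h3 : 12 * (univ.filter fun u : V => ¬ (univ.filter fun w => T.G.Adj u w).card ≤ 11).card ≤
      ∑ v : V, (univ.filter fun w => T.G.Adj v w).card := by
    calc 12 * (univ.filter fun u : V => ¬ (univ.filter fun w => T.G.Adj u w).card ≤ 11).card
        = ∑ v ∈ (univ.filter fun u : V => ¬ (univ.filter fun w => T.G.Adj u w).card ≤ 11), 12 := by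
          rw [Finset.sum_const, smul_eq_mul, mul_comm]
      _ ≤ ∑ v ∈ (univ.filter fun u : V => ¬ (univ.filter fun w => T.G.Adj u w).card ≤ 11),
          (univ.filter fun w => T.G.Adj v w).card := by
          apply Finset.sum_le_sum
          intro v hv
          rw [mem_filter] at hv
          omega
      _ ≤ _ := Finset.sum_le_sum_of_subset (Finset.filter_subset _ _)
  have h4 := Finset.card_filter_add_card_filter_not (s := (univ : Finset V))
    (fun u : V => (univ.filter fun w => T.G.Adj u w).card ≤ 11)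
  rw [Finset.card_univ] at h4
  omega

theorem sn_of_not_bad (hFire : StmtFire) {G₀ G : SimpleGraph V} (h : G₀ ≤ G) {e : ℕ} {u : V}
    (hu : ¬ Bad G e u) : e ≤ sn 2 G₀ u := by
  unfold Bad at hu
  push Not at hu
  obtain ⟨C, hC, Q, hQ, hQe⟩ := hu
  exact hQe.trans (hFire V G₀ G h u C hC Q hQ)

end

/-- The surviving rate of a graph with a triangulation above it. -/
theorem final_of_tri (hMain : StmtMain) (hFire : StmtFire)
    (hOne : StmtOneSaved) (hRad : StmtRadius) {V : Type} [Fintype V] (G : SimpleGraph V)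
    (hn : 2 ≤ Fintype.card V)
    (hPl : 3 ≤ Fintype.card V → ∃ (F : Type) (_ : Fintype F) (T : Tri V F), T.Sphere ∧
      ∀ u v, G.Adj u v → T.G.Adj u v) : 1 / 10 ^ 18 < rho 2 G := by
  -- constants
  obtain ⟨C, hC⟩ : ∃ C : ℕ, C = 10000000 := ⟨_, rfl⟩
  obtain ⟨K, hK⟩ : ∃ K : ℕ, K = 64 * C := ⟨_, rfl⟩
  obtain ⟨N, hN⟩ : ∃ N : ℕ, N = 16 * C * (4 * K + 5) := ⟨_, rfl⟩
  have hNpos : 0 < N := by rw [hN, hK, hC]; norm_num
  have hNle : (1 : ℝ) / 10 ^ 18 ≤ 1 / N := by
    apply one_div_le_one_div_of_le (by exact_mod_cast hNpos)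
    rw [hN, hK, hC]
    norm_num
  refine hNle.trans_lt ?_
  have hn0 : (0 : ℝ) < Fintype.card V := by exact_mod_cast (by omega : 0 < Fintype.card V)
  unfold rho
  rw [lt_div_iff₀ (by positivity)]
  by_cases hsmall : Fintype.card V < N
  · have h1 : (Fintype.card V : ℝ) ≤ ∑ v, (sn 2 G v : ℝ) := by
      calc (Fintype.card V : ℝ) = ∑ v : V, (1 : ℝ) := by simp
        _ ≤ _ := Finset.sum_le_sum (fun v _ => by exact_mod_cast hOne V G v hn)
    refine lt_of_lt_of_le ?_ h1
    have hN' : (Fintype.card V : ℝ) < N := by exact_mod_cast hsmall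
    have hNr : (0 : ℝ) < N := by exact_mod_cast hNpos
    rw [div_mul_eq_mul_div, one_mul, div_lt_iff₀ hNr, sq]
    exact mul_lt_mul_of_pos_left hN' hn0
  · push Not at hsmall
    have hNbig : 80 * C ≤ N := by rw [hN, hK, hC]; norm_num
    have h3 : 3 ≤ Fintype.card V := by
      have : 3 ≤ N := by rw [hN, hK, hC]; norm_num
      omega
    obtain ⟨F, _, T, hT, hGT⟩ := hPl h3
    have hle : G ≤ T.G := fun u v h => hGT u v h
    obtain ⟨n, hnn⟩ : ∃ n : ℕ, n = Fintype.card V := ⟨_, rfl⟩
    rw [← hnn] at hsmall h3 hn hn0 ⊢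
    obtain ⟨e, he⟩ : ∃ e : ℕ, e = n / (80 * C) := ⟨_, rfl⟩
    have hCpos : 0 < 80 * C := by rw [hC]; norm_num
    have he1 : 1 ≤ e := by
      rw [he]
      exact (Nat.one_le_div_iff hCpos).2 (hNbig.trans hsmall)
    have he2 : 80 * C * e ≤ n := by rw [he]; exact Nat.mul_div_le n (80 * C)
    have he3 : n < 80 * C * (e + 1) := by
      rw [he]; exact Nat.lt_mul_div_succ n hCpos
    set A := univ.filter fun u : V => (univ.filter fun w => T.G.Adj u w).card ≤ 11 with hA
    set L := A.filter (fun u => Bad T.G e u) with hL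
    have hlow := low_degree T hT
    rw [← hA, ← hnn] at hlow
    have hLcard : 16 * L.card ≤ 3 * n := by
      rcases L.eq_empty_or_nonempty with h0 | ⟨w, hw⟩
      · rw [h0]; simp
      · have hwb : Bad T.G e w := by rw [hL, mem_filter] at hw; exact hw.2
        have hKpos : 1 ≤ K := by rw [hK, hC]; norm_num
        have hr := hRad V T.G hT.conn e K hKpos ⟨w, hwb⟩
        rw [← hnn] at hr
        have hBS : T.BadSet L e := by
          intro u hu
          rw [hL, mem_filter, hA, mem_filter] at hu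
          exact ⟨hu.2, hu.1.2⟩
        have hm := hMain V F T hT L e (2 * e + 2 * K + 2 * (n / K) + 2) w he1 hBS
          (fun v => within_of_dist hT.conn (hr w v))
        have hdiv : K * (n / K) ≤ n := Nat.mul_div_le n K
        rw [← hC] at hm
        have h1 : 16 * (C * (e + 2 * (2 * e + 2 * K + 2 * (n / K) + 2) + 1)) =
            80 * C * e + 64 * C * (n / K) + 16 * C * (4 * K + 5) := by ring
        rw [← hK, ← hN] at h1
        calc 16 * L.card ≤ 16 * (C * (e + 2 * (2 * e + 2 * K + 2 * (n / K) + 2) + 1)) :=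
              Nat.mul_le_mul_left 16 hm
          _ = 80 * C * e + K * (n / K) + N := h1
          _ ≤ 3 * n := by omega
    have hsum : (A.card - L.card) * e ≤ ∑ v, sn 2 G v := by
      have h1 : A.card - L.card = (A \ L).card := by
        rw [Finset.card_sdiff_of_subset (Finset.filter_subset _ _)]
      rw [h1, ← smul_eq_mul, ← Finset.sum_const]
      refine (Finset.sum_le_sum ?_).trans
        (Finset.sum_le_sum_of_subset (Finset.subset_univ (A \ L)))
      intro u hu
      rw [mem_sdiff] at hu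
      exact sn_of_not_bad hFire hle (fun hb => hu.2 (mem_filter.2 ⟨hu.1, hb⟩))
    -- A.card - L.card ≥ n/4, e ≥ n / (160 C)
    have h4 : n ≤ 4 * (A.card - L.card) := by omega
    have h5 : n ≤ 160 * C * e := by
      have : 80 * C * (e + 1) ≤ 160 * C * e := by
        have : 80 * C * (e + 1) = 80 * C * e + 80 * C := by ring
        have h6 : 80 * C ≤ 80 * C * e := Nat.le_mul_of_pos_right _ he1
        have h7 : 160 * C * e = 80 * C * e + 80 * C * e := by ring
        omega
      omega
    have h6 : n * n ≤ 640 * C * ∑ v, sn 2 G v := by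
      calc n * n ≤ (4 * (A.card - L.card)) * (160 * C * e) := Nat.mul_le_mul h4 h5
        _ = 640 * C * ((A.card - L.card) * e) := by ring
        _ ≤ _ := Nat.mul_le_mul_left _ hsum
    have h7 : 640 * C < N := by rw [hN, hK, hC]; norm_num
    have hNr : (0 : ℝ) < N := by exact_mod_cast hNpos
    rw [div_mul_eq_mul_div, one_mul, div_lt_iff₀ hNr]
    have h8 : ((n : ℝ)) ^ 2 ≤ 640 * C * ∑ v, (sn 2 G v : ℝ) := by
      have : ((n * n : ℕ) : ℝ) ≤ ((640 * C * ∑ v, sn 2 G v : ℕ) : ℝ) := by exact_mod_cast h6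
      push_cast at this
      rw [sq]
      exact this
    have h9 : (0 : ℝ) < ∑ v, (sn 2 G v : ℝ) := by
      have h10 : (0 : ℝ) < (n : ℝ) ^ 2 := by positivity
      by_contra hcon
      push Not at hcon
      have : (640 : ℝ) * C * ∑ v, (sn 2 G v : ℝ) ≤ 0 :=
        mul_nonpos_of_nonneg_of_nonpos (by positivity) hcon
      linarith
    calc ((n : ℝ)) ^ 2 ≤ 640 * C * ∑ v, (sn 2 G v : ℝ) := h8
      _ < N * ∑ v, (sn 2 G v : ℝ) := by
          apply mul_lt_mul_of_pos_right _ h9
          exact_mod_cast h7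
      _ = (∑ v, (sn 2 G v : ℝ)) * N := by ring

/-- The explicit form for planar graphs. -/
theorem final_explicit (hMain : StmtMain) (hPl : Helper28.PL.StmtPlanar) (hFire : StmtFire)
    (hOne : StmtOneSaved) (hRad : StmtRadius) : ∀ (V : Type) [Fintype V] (G : SimpleGraph V),
    2 ≤ Fintype.card V → Helper28.PL.Planar G → (1 : ℝ) / 10 ^ 18 < rho 2 G :=
  fun V _ G hn hG => final_of_tri hMain hFire hOne hRad G hn (fun h3 => hPl V G h3 hG)

theorem final (hMain : StmtMain) (hPl : Helper28.PL.StmtPlanar) (hFire : StmtFire)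
    (hOne : StmtOneSaved) (hRad : StmtRadius) : StmtFinal :=
  ⟨1 / 10 ^ 18, by positivity, fun V _ G hn hG =>
    final_of_tri hMain hFire hOne hRad G hn (fun h3 => hPl V G h3 hG)⟩

end Pool.Agent.Helper1.FF2
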