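import Pool.Agent.Helper1.FF2.Final
import Pool.Agent.Helper28.PL.Final

/-!
# Two firefighters save a constant fraction of every planar graph (MP_7cb822_co, Q1)

For every planar graph `G` on at least two vertices the `2`-surviving rate is larger than
`10 ^ (-18)`: the class of planar graphs is not `2`-flammable.
-/

namespace Pool.Agent.Results.MP_7cb822_co.TwoFirefighters

open Finset Equiv
open scoped Classical

/-! ## Planar graphs -/

/-- A drawing on the sphere of a connected graph without loops and multiple edges, with vertex
set `V`, given as a rotation system of Euler characteristic `2`. The elements of `D` are the darts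
(an edge together with one of its two directions). -/
structure SphereDrawing (V D : Type) [Fintype V] [Fintype D] where
  /-- the rotation: the next dart with the same initial vertex -/
  σ : Perm D
  /-- the reversal of darts -/
  α : Perm D
  /-- the initial vertex of a dart -/
  vt : D → V
  /-- reversing twice gives the same dart -/
  α_inv : ∀ d, α (α d) = d
  /-- the reverse of a dart is a different dart -/
  α_ne : ∀ d, α d ≠ d
  /-- the darts with a given initial vertex form one cycle of the rotation -/
  vt_iff : ∀ d e, vt d = vt e ↔ σ.SameCycle d e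
  /-- every vertex is the initial vertex of some dart -/
  vt_surj : Function.Surjective vt
  /-- there are no loops -/
  noloop : ∀ d, vt (α d) ≠ vt d
  /-- there are no multiple edges -/
  simple : ∀ d e, vt d = vt e → vt (α d) = vt (α e) → d = e
  /-- the graph is connected -/
  conn : ∀ P : D → Prop, (∃ d, P d) → (∀ d, P d → P (σ d)) → (∀ d, P d → P (α d)) → ∀ d, P d
  /-- Euler's formula `V + F = E + 2`, multiplied by two (`2 E` is the number of darts, the faces
  are the cycles of `σ * α`) -/
  euler : 2 * Fintype.card V + 2 * Nat.card (Quotient (Perm.SameCycle.setoid (σ * α))) =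
    Fintype.card D + 4

/-- A finite simple graph with at least two vertices is planar if it is a (spanning) subgraph of a
connected simple graph drawn on the sphere. -/
def PlanarGraph {V : Type} [Fintype V] (G : SimpleGraph V) : Prop :=
  ∃ (D : Type) (_ : Fintype D) (M : SphereDrawing V D),
    ∀ u v, G.Adj u v → ∃ d, M.vt d = u ∧ M.vt (M.α d) = v

/-! ## The firefighter process -/

/-- The vertices protected up to time `t`, if `σ s` is the set of vertices chosen at time `s`. -/
noncomputable def prot {V : Type} (σ : ℕ → Finset V) (t : ℕ) : Finset V :=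
  (Icc 1 t).biUnion σ

/-- The vertices burning at time `t`, if the fire starts at `v`. -/
noncomputable def burn {V : Type} [Fintype V] (G : SimpleGraph V) (v : V) (σ : ℕ → Finset V) :
    ℕ → Finset V
  | 0 => {v}
  | t + 1 => burn G v σ t ∪
      univ.filter fun y => y ∉ prot σ (t + 1) ∧ ∃ x ∈ burn G v σ t, G.Adj x y

/-- `σ` is a legal strategy of `k` firefighters: at each time `t ≥ 1` at most `k` vertices are
chosen, none of them on fire. -/
def Legal {V : Type} [Fintype V] (G : SimpleGraph V) (k : ℕ) (v : V) (σ : ℕ → Finset V) : Prop :=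
  ∀ t, 1 ≤ t → (σ t).card ≤ k ∧ Disjoint (σ t) (burn G v σ (t - 1))

/-- The saved vertices: the vertices that never burn. -/
noncomputable def saved {V : Type} [Fintype V] (G : SimpleGraph V) (v : V)
    (σ : ℕ → Finset V) : Finset V :=
  univ.filter fun y => ∀ t, y ∉ burn G v σ t

/-- The largest number of vertices that `k` firefighters can save from a fire at `v`. -/
noncomputable def sn {V : Type} [Fintype V] (k : ℕ) (G : SimpleGraph V) (v : V) : ℕ :=
  sSup {m | ∃ σ, Legal G k v σ ∧ (saved G v σ).card = m}

/-- The `k`-surviving rate. -/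
noncomputable def rho {V : Type} [Fintype V] (k : ℕ) (G : SimpleGraph V) : ℝ :=
  (∑ v, (sn k G v : ℝ)) / (Fintype.card V : ℝ) ^ 2

/-! ## Comparison with the definitions of the helper files -/

theorem planarGraph_iff {V : Type} [Fintype V] (G : SimpleGraph V) (h : PlanarGraph G) :
    Helper28.PL.PlanarGraph G := by
  obtain ⟨D, iD, M, hG⟩ := h
  exact ⟨D, iD, ⟨M.σ, M.α, M.vt, M.α_inv, M.α_ne, M.vt_iff, M.vt_surj, M.noloop, M.simple,
    M.conn, M.euler⟩, hG⟩

theorem burn_eq {V : Type} [Fintype V] (G : SimpleGraph V) (v : V) (σ : ℕ → Finset V) (t : ℕ) :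
    burn G v σ t = Pool.Agent.Helper34.FF.burn G v σ t := by
  induction t with
  | zero => rfl
  | succ t ih =>
    unfold burn Pool.Agent.Helper34.FF.burn
    rw [ih]
    rfl

theorem rho_eq {V : Type} [Fintype V] (k : ℕ) (G : SimpleGraph V) :
    rho k G = Pool.Agent.Helper34.FF.rho k G := by
  have hb : ∀ v σ, burn G v σ = Pool.Agent.Helper34.FF.burn G v σ :=
    fun v σ => funext (burn_eq G v σ)
  unfold rho Pool.Agent.Helper34.FF.rho sn Pool.Agent.Helper34.FF.sn saved
    Pool.Agent.Helper34.FF.saved Legal Pool.Agent.Helper34.FF.Legal
  simp only [hb]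

/-- Every planar graph on at least two vertices has `2`-surviving rate larger than `10 ^ (-18)`. -/
theorem result' (hMain : Pool.Agent.Helper1.FF2.StmtMain)
    (hFire : Pool.Agent.Helper34.FF.StmtFire) (hOne : Pool.Agent.Helper34.FF.StmtOneSaved)
    (hRad : Pool.Agent.Helper34.FF.StmtRadius)
    (V : Type) [Fintype V] (G : SimpleGraph V) (hV : 2 ≤ Fintype.card V) (hG : PlanarGraph G) :
    1 / 10 ^ 18 < rho 2 G := by
  rw [rho_eq]
  exact Pool.Agent.Helper1.FF2.final_of_tri hMain hFire hOne hRad G hV
    (fun h3 => Helper28.PL.planarGraph_tri G h3 (planarGraph_iff G hG))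

end Pool.Agent.Results.MP_7cb822_co.TwoFirefighters
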