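import Pool.Agent.Helper34.FF.Goals3
import Pool.Agent.Helper1.FF2.Final

/-!
# The main inequality from the regime, the annulus and the endgame
-/

namespace Pool.Agent.Helper1.FF2

open Finset
open Pool.Agent.Helper34.FF
open scoped symmDiff Classical

/-- The endgame. -/
def StmtEnd' : Prop := ∀ (V F : Type) [Fintype V] [Fintype F] (T : Tri V F), T.Sphere →
  ∀ (L : Finset V) (e l lam : ℕ) (Xa T₁ : Finset F), T.Ann L e l lam Xa T₁ →
    ((L ∩ T.Vin T₁) ∩ T.Vin Xaᶜ).card ≤ 30 * lam + 40 * l + 10 * e + 3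

theorem pf_StmtMain (hReg : StmtRegime) (hAnn : StmtAnn) (hEnd : StmtEnd') : StmtMain := by
  intro V F _ _ T hT L e r o he hBS hW
  by_contra hcon
  push Not at hcon
  obtain ⟨T₁, l, hR, hl, hL⟩ := hReg V F T hT L e o r he hBS hW (by omega)
  obtain ⟨Xa, hA, hm⟩ := hAnn V F T hT L e l T₁ hR (by omega)
  have := hEnd V F T hT L e l _ Xa T₁ hA
  omega

end Pool.Agent.Helper1.FF2
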