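import Pool.Agent.Helper34.FF.Goals4
import Pool.Agent.Helper34.FF.G1
import Pool.Agent.Helper1.FF2.Count
import Pool.Agent.Helper1.FF2.Main

/-!
# E8 and E10
-/

namespace Pool.Agent.Helper1.FF2

open Finset
open Pool.Agent.Helper34.FF hiding StmtMain
open scoped symmDiff Classical

theorem pf_StmtThinPair (hFill : StmtFill) (hNB : StmtNotBetween) (hMass : StmtMass) :
    StmtThinPair := by
  intro V F _ _ T hT L e l lam Xa T₁ P S x y z hA hTr hd hl
  obtain ⟨A, c, hXaA, hAS, hlenA, hmA, hIso, hc0, hcδ, harc⟩ :=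
    hFill V F T hT L e l lam Xa T₁ P S x y z hA hTr hd hl
  obtain ⟨hM1, hM2⟩ := hMass V F T hT
  have hδ : 1 ≤ T.G.dist x z := by
    rw [Nat.one_le_iff_ne_zero]
    intro h0
    exact hTr.xz ((hT.conn.dist_eq_zero_iff).1 h0)
  have hsub : ((T.UU L Xa T₁).filter fun w => T.G.dist x w + T.G.dist w z = T.G.dist x z) ⊆
      (L ∩ T.Vin (T₁ \ S)) ∪ (L ∩ T.Vin (A \ Xa)) ∪ T.Vbd A := by
    intro w hw
    rw [mem_filter, Tri.UU, mem_inter, mem_inter] at hw
    obtain ⟨⟨⟨hwL, hwT⟩, hwX⟩, hwd⟩ := hw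
    have hVin : ∀ (Y : Finset F), w ∈ T.Vin Y ↔ ∀ f, w ∈ T.tri f → f ∈ Y := by
      intro Y; simp [Tri.Vin]
    by_cases h1 : w ∈ T.Vin Sᶜ
    · refine mem_union_left _ (mem_union_left _ (mem_inter.2 ⟨hwL, (hVin _).2 fun f hf => ?_⟩))
      exact mem_sdiff.2 ⟨(hVin _).1 hwT f hf, mem_compl.1 ((hVin _).1 h1 f hf)⟩
    · have h2 : w ∉ T.Vin Aᶜ := by
        intro h2
        exact hNB V F T hT L e l lam Xa T₁ A S c (T.G.dist x z) x z w hA hXaA hAS hTr.ST hlenA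
          hIso hδ hl hc0 hcδ harc h2 h1 hwd
      rcases (pTri V F T hT).1 A w with h3 | h3 | h3
      · refine mem_union_left _ (mem_union_right _ (mem_inter.2 ⟨hwL, (hVin _).2 fun f hf => ?_⟩))
        exact mem_sdiff.2 ⟨(hVin _).1 h3 f hf, mem_compl.1 ((hVin _).1 hwX f hf)⟩
      · exact mem_union_right _ h3
      · exact absurd h3 h2
  have h4 := Finset.card_le_card hsub
  have h5 := Finset.card_union_le ((L ∩ T.Vin (T₁ \ S)) ∪ (L ∩ T.Vin (A \ Xa))) (T.Vbd A)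
  have h6 := Finset.card_union_le (L ∩ T.Vin (T₁ \ S)) (L ∩ T.Vin (A \ Xa))
  have h7 := hM1 A
  have h8 : T.m L (T₁ \ S) = (L ∩ T.Vin (T₁ \ S)).card := rfl
  have h9 : T.m L (A \ Xa) = (L ∩ T.Vin (A \ Xa)).card := rfl
  have h10 := hTr.massS
  omega

theorem pf_StmtEnd (hTriple : StmtTriple) (hMiddle : StmtMiddle) (hThinPair : StmtThinPair) :
    StmtEnd := by
  intro V F _ _ T hT L e l lam Xa T₁ hA
  by_cases hbig : 6 * lam + 10 * l + 3 * e < (T.UU L Xa T₁).card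
  swap
  · omega
  have hVin : ∀ (w : V) (Y : Finset F), w ∈ T.Vin Y ↔ ∀ f, w ∈ T.tri f → f ∈ Y := by
    intro w Y; simp [Tri.Vin]
  have hUU : ∀ u, u ∈ T.UU L Xa T₁ → u ∈ L ∧ u ∈ T.Vin T₁ ∧ u ∈ T.Vin Xaᶜ := by
    intro u hu
    rw [Tri.UU, mem_inter, mem_inter] at hu
    exact ⟨hu.1.1, hu.1.2, hu.2⟩
  have hch : ∀ u : V, ∃ D S : Finset F, u ∈ T.UU L Xa T₁ →
      (Xa ⊆ D ∧ D ⊆ T₁ ∧ T.len D = l ∧ u ∈ T.Vbd D ∧ T.m L (D \ Xa) ≤ lam) ∧
      (Xa ⊆ S ∧ S ⊆ T₁ ∧ T.len S = l ∧ u ∈ T.Vbd S ∧ T.m L (T₁ \ S) ≤ lam) := by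
    intro u
    by_cases hu : u ∈ T.UU L Xa T₁
    · obtain ⟨h1, h2, h3⟩ := hUU u hu
      obtain ⟨⟨D, hD⟩, ⟨S, hS⟩⟩ := hA.thin u h1 h2 h3
      exact ⟨D, S, fun _ => ⟨hD, hS⟩⟩
    · exact ⟨∅, ∅, fun h => absurd h hu⟩
  choose D S hDS using hch
  set R : V → Finset V := fun v => univ.filter (fun u => ¬ T.Cmp (D v) (S v) u) with hR
  set N : V → V → Finset V := fun x z =>
    univ.filter (fun w => T.G.dist x w + T.G.dist w z = T.G.dist x z) with hN
  have hNsymm : ∀ x z, N x z = N z x := by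
    intro x z
    ext w
    simp only [hN, mem_filter, mem_univ, true_and]
    rw [T.G.dist_comm (u := z) (v := w), T.G.dist_comm (u := w) (v := x),
      T.G.dist_comm (u := z) (v := x), add_comm]
  have hRc : ∀ v ∈ T.UU L Xa T₁, ((T.UU L Xa T₁) ∩ R v).card ≤ 2 * lam := by
    intro v hv
    obtain ⟨hD, hS⟩ := hDS v hv
    have hsub : (T.UU L Xa T₁) ∩ R v ⊆ (L ∩ T.Vin (D v \ Xa)) ∪ (L ∩ T.Vin (T₁ \ S v)) := by
      intro u hu
      rw [mem_inter] at hu
      obtain ⟨hu1, hu2⟩ := hu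
      obtain ⟨huL, huT, huX⟩ := hUU u hu1
      simp only [hR, mem_filter, mem_univ, true_and, Tri.Cmp, not_and_or, not_not] at hu2
      rcases hu2 with h | h
      · refine mem_union_left _ (mem_inter.2 ⟨huL, (hVin _ _).2 fun f hf => ?_⟩)
        exact mem_sdiff.2 ⟨(hVin _ _).1 h f hf, mem_compl.1 ((hVin _ _).1 huX f hf)⟩
      · refine mem_union_right _ (mem_inter.2 ⟨huL, (hVin _ _).2 fun f hf => ?_⟩)
        exact mem_sdiff.2 ⟨(hVin _ _).1 huT f hf, mem_compl.1 ((hVin _ _).1 h f hf)⟩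
    have h1 := Finset.card_le_card hsub
    have h2 := Finset.card_union_le (L ∩ T.Vin (D v \ Xa)) (L ∩ T.Vin (T₁ \ S v))
    have h3 : T.m L (D v \ Xa) = (L ∩ T.Vin (D v \ Xa)).card := rfl
    have h4 : T.m L (T₁ \ S v) = (L ∩ T.Vin (T₁ \ S v)).card := rfl
    have h5 := hD.2.2.2.2
    have h6 := hS.2.2.2.2
    omega
  have key := count_lemma (T.UU L Xa T₁) R N (2 * lam) (6 * lam + 10 * l + 2 * e) hNsymm hRc ?_
  · omega
  intro x hx y hy z hz hxy hyz hxz h1 h2 h3 h4 h5 h6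
  simp only [hR, mem_filter, mem_univ, true_and, not_not] at h1 h2 h3 h4 h5 h6
  have hL : ∀ i : Fin 3, (![x, y, z] : Fin 3 → V) i ∈ T.UU L Xa T₁ := by
    intro i; fin_cases i
    · exact hx
    · exact hy
    · exact hz
  obtain ⟨P, S', hTr⟩ := hTriple V F T hT L e l lam Xa T₁ hA ![x, y, z]
    (fun i => D (![x, y, z] i)) (fun i => S (![x, y, z] i))
    (fun i => (hUU _ (hL i)).1)
    (by
      intro i j hij
      fin_cases i <;> fin_cases j <;> first | exact absurd rfl hij | skip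
      · exact hxy
      · exact hxz
      · exact hxy.symm
      · exact hyz
      · exact hxz.symm
      · exact hyz.symm)
    (fun i => (hDS _ (hL i)).1) (fun i => (hDS _ (hL i)).2)
    (by
      intro i j hij
      fin_cases i <;> fin_cases j <;> first | exact absurd rfl hij | skip
      · exact h1
      · exact h5
      · exact h2
      · exact h3
      · exact h6
      · exact h4)
  have hTr' : T.Trip L l lam Xa T₁ P S' x y z := hTr
  have hNf : ∀ a b : V, (T.UU L Xa T₁) ∩ N a b = (T.UU L Xa T₁).filter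
      fun w => T.G.dist a w + T.G.dist w b = T.G.dist a b := by
    intro a b
    ext w
    simp only [hN, mem_inter, mem_filter, mem_univ, true_and]
  rcases hMiddle V F T hT L e l lam Xa T₁ P S' x y z hA hTr' hbig with h | h | h
  · left
    refine ⟨?_, ?_⟩
    · simp only [hN, mem_filter, mem_univ, true_and]
      exact h.1.symm
    · rw [hNf]
      exact hThinPair V F T hT L e l lam Xa T₁ P S' x y z hA hTr' h.1 h.2
  · right; right
    refine ⟨?_, ?_⟩
    · simp only [hN, mem_filter, mem_univ, true_and]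
      exact h.1.symm
    · rw [hNf]
      have hTr2 : T.Trip L l lam Xa T₁ P S' x z y :=
        ⟨hTr'.XP, hTr'.PS, hTr'.ST, hTr'.lenP, hTr'.lenS, hTr'.hx, hTr'.hz, hTr'.hy, hTr'.xz,
          hTr'.yz.symm, hTr'.xy, hTr'.massS, hTr'.massP⟩
      exact hThinPair V F T hT L e l lam Xa T₁ P S' x z y hA hTr2 h.1 h.2
  · right; left
    refine ⟨?_, ?_⟩
    · simp only [hN, mem_filter, mem_univ, true_and]
      exact h.1.symm
    · rw [hNf]
      have hTr2 : T.Trip L l lam Xa T₁ P S' y x z :=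
        ⟨hTr'.XP, hTr'.PS, hTr'.ST, hTr'.lenP, hTr'.lenS, hTr'.hy, hTr'.hx, hTr'.hz,
          hTr'.xy.symm, hTr'.xz, hTr'.yz, hTr'.massS, hTr'.massP⟩
      exact hThinPair V F T hT L e l lam Xa T₁ P S' y x z hA hTr2 h.1 h.2

theorem stmtEnd'_of (h : StmtEnd) : StmtEnd' := by
  intro V F _ _ T hT L e l lam Xa T₁ hA
  exact h V F T hT L e l lam Xa T₁ hA

end Pool.Agent.Helper1.FF2
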