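import Pool.Agent.Helper34.FF.Goals3
import Pool.Agent.Helper34.FF.G1

/-!
# C4 and C9
-/

namespace Pool.Agent.Helper1.FF2

open Finset
open Pool.Agent.Helper34.FF
open scoped symmDiff Classical

theorem pf_StmtMaxCl : StmtMaxCl := by
  intro V F _ _ T hT e l B hB i
  have hBi : T.Cl B l i (B i) := by
    refine ⟨subset_rfl, fun j hj => hB.disj i j hj.symm, ?_⟩
    obtain ⟨c, hc⟩ := hB.iso i
    exact (pEnumFacts V F T hT (B i) l c hc.1).2.1
  set S := univ.filter (fun A : Finset F => T.Cl B l i A) with hS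
  have hne : S.Nonempty := ⟨B i, mem_filter.2 ⟨mem_univ _, hBi⟩⟩
  obtain ⟨A, hA, hmax⟩ := Finset.exists_max_image S (fun A => A.card) hne
  rw [hS, mem_filter] at hA
  refine ⟨A, hA.2, fun A' hA' => ?_⟩
  obtain ⟨hA1, hA2, hA3⟩ := hA.2
  obtain ⟨hA'1, hA'2, hA'3⟩ := hA'
  obtain ⟨j, hj⟩ : ∃ j : Fin 3, j ≠ i := exists_ne i
  have h1 : l ≤ T.len (A ∪ A') := by
    refine hB.sep _ (fun k => ?_) ⟨i, hA1.trans subset_union_left⟩
      ⟨j, Finset.disjoint_union_left.2 ⟨hA2 j hj, hA'2 j hj⟩⟩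
    by_cases hk : k = i
    · subst hk; exact Or.inl (hA1.trans subset_union_left)
    · exact Or.inr (Finset.disjoint_union_left.2 ⟨hA2 k hk, hA'2 k hk⟩)
  have h2 : l ≤ T.len (A ∩ A') := by
    refine hB.sep _ (fun k => ?_) ⟨i, subset_inter hA1 hA'1⟩
      ⟨j, (hA2 j hj).mono_left inter_subset_left⟩
    by_cases hk : k = i
    · subst hk; exact Or.inl (subset_inter hA1 hA'1)
    · exact Or.inr ((hA2 k hk).mono_left inter_subset_left)
  have h3 := (pSub V F T A A' (fun _ => True)).1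
  simp only [Finset.filter_true] at h3
  have h4 : T.len (A ∪ A') = l := by
    unfold Tri.len at *
    omega
  have h5 : (A ∪ A') ∈ S := by
    rw [hS, mem_filter]
    refine ⟨mem_univ _, hA1.trans subset_union_left, fun k hk => ?_, h4⟩
    exact Finset.disjoint_union_left.2 ⟨hA2 k hk, hA'2 k hk⟩
  have h6 := hmax _ h5
  have h7 : A = A ∪ A' := Finset.eq_of_subset_of_card_le subset_union_left h6
  rw [h7]
  exact subset_union_right

theorem pf_StmtNoThird (hSplit : StmtSplit) (hMk : StmtMkBlobs) (hThree : StmtThreeBlobs)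
    (hMass : StmtMass) : StmtNoThird := by
  intro V F _ _ T hT L e l T₁ X H hR hX hH hXT hHT hdis hlX hlH hmX
  by_contra hcon
  push Not at hcon
  obtain ⟨H', hH'b, hH'H, hlH', hm1, hm2⟩ := hSplit V F T hT L e l T₁ H hR hH hHT hlH hcon
  have he := hR.one
  have hdis' : Disjoint X H' := hdis.mono_right hH'H
  have hBl := hMk V F T hT L e l T₁ X H' hR hX hH'b hXT (hH'H.trans hHT) hdis' hlX hlH' hmX
    (by omega)
  have h3 := hThree V F T hT L e l _ hBl (fun u hu => (hR.bad u hu).1)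
  obtain ⟨hM1, hM2⟩ := hMass V F T hT
  have hsub : L ∩ T.Vin H ⊆ (L ∩ T.Vin H') ∪ T.Vbd H' ∪
      (L.filter fun u => ∀ i : Fin 3, u ∈ T.Vin ((![X, H', T₁ᶜ] : Fin 3 → Finset F) i)ᶜ) := by
    intro u hu
    rw [mem_inter] at hu
    rcases (pTri V F T hT).1 H' u with h | h | h
    · exact mem_union_left _ (mem_union_left _ (mem_inter.2 ⟨hu.1, h⟩))
    · exact mem_union_left _ (mem_union_right _ h)
    · refine mem_union_right _ (mem_filter.2 ⟨hu.1, ?_⟩)
      have hmono : ∀ Y : Finset F, H ⊆ Y → u ∈ T.Vin Y := by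
        intro Y hY
        have h4 := hu.2
        simp only [Tri.Vin, mem_filter, mem_univ, true_and] at h4 ⊢
        exact fun f hf => hY (h4 f hf)
      intro i
      fin_cases i
      · show u ∈ T.Vin Xᶜ
        refine hmono _ (fun f hf => mem_compl.2 (fun hfX => ?_))
        exact Finset.disjoint_left.1 hdis hfX hf
      · exact h
      · show u ∈ T.Vin T₁ᶜᶜ
        rw [compl_compl]
        exact hmono _ hHT
  have h4 := Finset.card_le_card hsub
  have h5 := (Finset.card_union_le ((L ∩ T.Vin H') ∪ T.Vbd H')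
    (L.filter fun u => ∀ i : Fin 3, u ∈ T.Vin ((![X, H', T₁ᶜ] : Fin 3 → Finset F) i)ᶜ))
  have h6 := Finset.card_union_le (L ∩ T.Vin H') (T.Vbd H')
  have h7 := hM1 H'
  have h8 : T.m L H = (L ∩ T.Vin H).card := rfl
  have h9 : T.m L H' = (L ∩ T.Vin H').card := rfl
  omega

end Pool.Agent.Helper1.FF2
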