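import Pool.Agent.Helper23.FF.StmtFill

/-!
# One of the three vertices is between the two others (StmtMiddle of MP_7cb822_co)
-/

namespace Pool.Agent.Helper1.FF2

open Finset
open Pool.Agent.Helper34.FF hiding StmtG
open Pool.Agent.Helper23.FF
open scoped symmDiff Classical

theorem mid_half {l p q xy yz xz : ℕ} (p0 : 0 < p) (pq : p < q) (ql : q < l)
    (dxy : xy = min p (l - p)) (dyz : yz = min (q - p) (l - (q - p)))
    (dxz : xz = min q (l - q))
    (h1 : ¬ (xz = xy + yz ∧ 2 * xz < l)) (h2 : ¬ (xy = xz + yz ∧ 2 * xy < l))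
    (h3 : ¬ (yz = xy + xz ∧ 2 * yz < l)) :
    xy = p ∧ yz = q - p ∧ xz = l - q ∧ 2 * p ≤ l ∧ 2 * (q - p) ≤ l ∧ 2 * (l - q) ≤ l := by
  obtain ⟨a, rfl⟩ : ∃ a, q = p + a := ⟨q - p, by omega⟩
  obtain ⟨b, rfl⟩ : ∃ b, l = p + a + b := ⟨l - (p + a), by omega⟩
  have e1 : p + a + b - p = a + b := by omega
  have e2 : p + a - p = a := by omega
  have e3 : p + a + b - a = p + b := by omega
  have e4 : p + a + b - (p + a) = b := by omega
  rw [e1] at dxy
  rw [e2, e3] at dyz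
  rw [e4] at dxz
  rw [e2, e4]
  rcases le_total p (a + b) with g1 | g1
  · rw [min_eq_left g1] at dxy
    rcases le_total a (p + b) with g2 | g2
    · rw [min_eq_left g2] at dyz
      rcases le_total (p + a) b with g3 | g3
      · rw [min_eq_left g3] at dxz
        by_cases g4 : p + a = b
        · omega
        · exact absurd ⟨by omega, by omega⟩ h1
      · rw [min_eq_right g3] at dxz
        omega
    · rw [min_eq_right g2] at dyz
      rcases le_total (p + a) b with g3 | g3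
      · omega
      · rw [min_eq_right g3] at dxz
        by_cases g4 : a = p + b
        · omega
        · exact absurd ⟨by omega, by omega⟩ h3
  · rw [min_eq_right g1] at dxy
    rcases le_total a (p + b) with g2 | g2
    · rw [min_eq_left g2] at dyz
      rcases le_total (p + a) b with g3 | g3
      · omega
      · rw [min_eq_right g3] at dxz
        by_cases g4 : p = a + b
        · omega
        · exact absurd ⟨by omega, by omega⟩ h2
    · omega

theorem mid_omega {l p q p' q' xy yz xz : ℕ} (p0 : 0 < p) (pq : p < q) (ql : q < l)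
    (dxy : xy = min p (l - p)) (dyz : yz = min (q - p) (l - (q - p)))
    (dxz : xz = min q (l - q)) (p0' : 0 < p') (pq' : p' < q') (ql' : q' < l)
    (dxy' : xy = min p' (l - p')) (dyz' : yz = min (q' - p') (l - (q' - p')))
    (dxz' : xz = min q' (l - q'))
    (h1 : ¬ (xz = xy + yz ∧ 2 * xz < l)) (h2 : ¬ (xy = xz + yz ∧ 2 * xy < l))
    (h3 : ¬ (yz = xy + xz ∧ 2 * yz < l)) :
    p' = p ∧ q' = q ∧ 2 * p ≤ l ∧ 2 * (q - p) ≤ l ∧ 2 * (l - q) ≤ l := by
  obtain ⟨a1, a2, a3, a4, a5, a6⟩ := mid_half p0 pq ql dxy dyz dxz h1 h2 h3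
  obtain ⟨b1, b2, b3, b4, b5, b6⟩ := mid_half p0' pq' ql' dxy' dyz' dxz' h1 h2 h3
  clear dxy dyz dxz dxy' dyz' dxz' h1 h2 h3
  refine ⟨by omega, by omega, a4, a5, a6⟩

variable {V F : Type} [Fintype V] [Fintype F] (T : Tri V F)

theorem card_sd_le {α : Type} [DecidableEq α] (A B : Finset α) :
    (A ∆ B).card ≤ A.card + B.card := by
  have := card_symmDiff_add A B
  omega

theorem bdry_eq_arcE (hT : T.Sphere) {X : Finset F} {l : ℕ} {c : ℤ → V} (h : T.Enum X l c) :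
    T.bdry X = arcE c 0 l := by
  have h1 := ((pEnumFacts V F T hT X l c h).2.2.2.2.2.1 0 0 le_rfl (by omega)).2.2.1
  rw [← h1, zero_add]
  have h2 : arcE c 0 0 = ∅ := by simp [arcE]
  rw [h2]
  simp

theorem sd_six {α : Type} [DecidableEq α] (a b c a' b' c' : Finset α) :
    (a' ∆ a) ∆ (b' ∆ b) ∆ (c' ∆ c) = (a' ∆ b' ∆ c') ∆ (a ∆ b ∆ c) := by
  rw [symmDiff_symmDiff_symmDiff_comm a' a b' b, symmDiff_symmDiff_symmDiff_comm]

theorem pf_StmtMiddle (hPos : StmtPos) (hBead : StmtBead) (hMass : StmtMass) : StmtMiddle := by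
  intro V F _ _ T hT L e l lam Xa T₁ P S x y z hA hTr hbig
  by_contra hcon
  push Not at hcon
  have hPT : P ⊆ T₁ := hTr.PS.trans hTr.ST
  have hXS : Xa ⊆ S := hTr.XP.trans hTr.PS
  obtain ⟨cP0, hP0⟩ := hA.iso P hTr.XP hPT hTr.lenP
  obtain ⟨cS0, hS0⟩ := hA.iso S hXS hTr.ST hTr.lenS
  obtain ⟨c, p, q, hp⟩ := hPos V F T hT P l cP0 x y z hP0 hTr.hx.2.1 hTr.hy.2.1 hTr.hz.2.1
    hTr.xy hTr.yz hTr.xz
  obtain ⟨c', p', q', hp'⟩ := hPos V F T hT S l cS0 x y z hS0 hTr.hx.2.2 hTr.hy.2.2 hTr.hz.2.2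
    hTr.xy hTr.yz hTr.xz
  obtain ⟨iP, cx, cy, cz, p0, pq, ql, dxy, dyz, dxz⟩ := hp
  obtain ⟨iS, cx', cy', cz', p0', pq', ql', dxy', dyz', dxz'⟩ := hp'
  have hzy : T.G.dist z y = T.G.dist y z := SimpleGraph.dist_comm
  have hyx : T.G.dist y x = T.G.dist x y := SimpleGraph.dist_comm
  rw [hzy, hyx] at hcon
  obtain ⟨hpp, hqq, k1, k2, k3⟩ := mid_omega p0 pq ql dxy dyz dxz p0' pq' ql' dxy' dyz' dxz'
    (fun h => absurd h.2 (not_lt.2 (hcon.1 h.1)))
    (fun h => absurd h.2 (not_lt.2 (hcon.2.1 h.1)))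
    (fun h => absurd h.2 (not_lt.2 (hcon.2.2 h.1)))
  rw [hqq] at cz' pq' ql'
  rw [hpp] at cy' p0' pq'
  clear dxy dyz dxz dxy' dyz' dxz' hcon
  have cl : c (l : ℤ) = x := by
    have := iP.1.per 0
    rw [zero_add, cx] at this
    exact this
  have cl' : c' (l : ℤ) = x := by
    have := iS.1.per 0
    rw [zero_add, cx'] at this
    exact this
  -- connectedness
  have hDC := hA.bondT.2
  have hSD : Disjoint S T₁ᶜ := by
    rw [disjoint_left]
    intro f hf hf'
    rw [mem_compl] at hf'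
    exact hf' (hTr.ST hf)
  have hcompl := (pAlg V F T).2.1
  have hadd := (pAlg V F T).1
  obtain ⟨Z1, bZ1, dZ1⟩ := exists_between T hT iP.1 iS.1 hTr.PS hDC hSD (i := 0) (j := p)
    (by omega) (by omega) (by rw [cx, cx']) (by rw [cy, cy'])
  obtain ⟨Z2, bZ2, dZ2⟩ := exists_between T hT iP.1 iS.1 hTr.PS hDC hSD (i := p) (j := q)
    (by omega) (by omega) (by rw [cy, cy']) (by rw [cz, cz'])
  obtain ⟨Z3, bZ3, dZ3⟩ := exists_between T hT iP.1 iS.1 hTr.PS hDC hSD (i := q) (j := l)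
    (by omega) (by omega) (by rw [cz, cz']) (by rw [cl, cl'])
  have hl : ∀ u ∈ L, Bad T.G e u := hA.bad
  have hper : ∀ (X : Finset F) (d : ℤ → V), T.Enum X l d → ∀ s : ℤ, d ((l : ℤ) - s + s) = d 0 := by
    intro X d hd s
    have := hd.per 0
    rw [zero_add] at this
    rw [sub_add_cancel, this]
  -- the beads are light
  have m1 : (T.Vin Z1).card < e := by
    refine hBead V F T hT P S Z1 T₁ᶜ l p c c' q q z e iP iS hTr.PS hDC.1 hSD dZ1 (by omega)
      (by omega) (by rw [cx, cx']) (by rw [cy, cy']) (by omega) (by omega) (by omega) (by omega)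
      cz.symm cz'.symm (hl z hTr.hz.1) bZ1
  have m2 : (T.Vin Z2).card < e := by
    refine hBead V F T hT P S Z2 T₁ᶜ l (q - p) (fun t => c (t + p)) (fun t => c' (t + p))
      ((l : ℤ) - p) ((l : ℤ) - p) x e (iso_shift T hT iP p) (iso_shift T hT iS p) hTr.PS
      hDC.1 hSD dZ2 (by omega) (by omega) ?_ ?_ ?_ (by omega) ?_ (by omega) ?_ ?_
      (hl x hTr.hx.1) ?_
    · show c' (0 + p) = c (0 + p)
      rw [zero_add, cy, cy']
    · show c' (((q - p : ℕ) : ℤ) + p) = c (((q - p : ℕ) : ℤ) + p)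
      rw [Nat.cast_sub pq.le, sub_add_cancel, cz, cz']
    · rw [Nat.cast_sub pq.le]; omega
    · rw [Nat.cast_sub pq.le]; omega
    · show x = c ((l : ℤ) - p + p)
      rw [hper P c iP.1, cx]
    · show x = c' ((l : ℤ) - p + p)
      rw [hper S c' iS.1, cx']
    · rw [arcE_shift, arcE_shift, bZ2, zero_add, Nat.cast_sub pq.le, sub_add_cancel]
  have m3 : (T.Vin Z3).card < e := by
    have hs : ∀ (X : Finset F) (d : ℤ → V), T.Enum X l d → d p = y →
        d ((l : ℤ) - q + p + q) = y := by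
      intro X d hd hy
      have := hd.per p
      rw [show (l : ℤ) - q + p + q = p + l by ring, this, hy]
    refine hBead V F T hT P S Z3 T₁ᶜ l (l - q) (fun t => c (t + q)) (fun t => c' (t + q))
      ((l : ℤ) - q + p) ((l : ℤ) - q + p) y e (iso_shift T hT iP q) (iso_shift T hT iS q) hTr.PS
      hDC.1 hSD dZ3 (by omega) (by omega) ?_ ?_ ?_ (by omega) ?_ (by omega) ?_ ?_
      (hl y hTr.hy.1) ?_
    · show c' (0 + q) = c (0 + q)
      rw [zero_add, cz, cz']
    · show c' (((l - q : ℕ) : ℤ) + q) = c (((l - q : ℕ) : ℤ) + q)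
      rw [Nat.cast_sub ql.le, sub_add_cancel, cl, cl']
    · rw [Nat.cast_sub ql.le]; omega
    · rw [Nat.cast_sub ql.le]; omega
    · exact (hs P c iP.1 cy).symm
    · exact (hs S c' iS.1 cy').symm
    · rw [arcE_shift, arcE_shift, bZ3, zero_add, Nat.cast_sub ql.le, sub_add_cancel]
  -- the three beads cover `S \ P`
  have hSP : S \ P = Z1 ∆ Z2 ∆ Z3 := by
    have b1 : T.bdry (Z1 ∆ Z2 ∆ Z3) = T.bdry S ∆ T.bdry P := by
      rw [hadd, hadd, bZ1, bZ2, bZ3, sd_six,
        ← arcE_split T hT iP.1 (i := 0) (j := p) (k := q) (by omega) (by omega) (by omega),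
        ← arcE_split T hT iP.1 (i := 0) (j := q) (k := l) (by omega) (by omega) (by omega),
        ← arcE_split T hT iS.1 (i := 0) (j := p) (k := q) (by omega) (by omega) (by omega),
        ← arcE_split T hT iS.1 (i := 0) (j := q) (k := l) (by omega) (by omega) (by omega),
        ← bdry_eq_arcE T hT iP.1, ← bdry_eq_arcE T hT iS.1]
    have b2 : S \ P = S ∆ P := by
      ext f
      simp only [mem_sdiff, mem_symmDiff]
      constructor
      · exact fun h => Or.inl h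
      · rintro (h | h)
        · exact h
        · exact absurd (hTr.PS h.1) h.2
    have b3 : T.bdry ((S \ P) ∆ (Z1 ∆ Z2 ∆ Z3)) = ∅ := by
      rw [hadd, b1, b2, hadd, symmDiff_self]
      rfl
    rcases hT.dual _ b3 with h | h
    · exact symmDiff_eq_bot.1 h
    · exfalso
      obtain ⟨f, hf⟩ := hDC.1
      have h1 : f ∈ (S \ P) ∆ (Z1 ∆ Z2 ∆ Z3) := by rw [h]; exact mem_univ f
      have n1 : f ∉ S := fun hh => disjoint_left.1 hSD hh hf
      have n2 : f ∉ Z1 := fun hh => disjoint_left.1 dZ1 hh hf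
      have n3 : f ∉ Z2 := fun hh => disjoint_left.1 dZ2 hh hf
      have n4 : f ∉ Z3 := fun hh => disjoint_left.1 dZ3 hh hf
      simp only [mem_symmDiff, mem_sdiff, n1, n2, n3, n4] at h1
      simp at h1
  -- the count
  have hincl : T.UU L Xa T₁ ⊆ (L ∩ T.Vin (P \ Xa)) ∪ T.Vbd P ∪
      ((T.Vin Z1 ∪ T.Vbd Z1) ∪ (T.Vin Z2 ∪ T.Vbd Z2) ∪ T.Vin Z3) ∪ T.Vbd S ∪
      (L ∩ T.Vin (T₁ \ S)) := by
    intro v hv
    rw [Tri.UU, mem_inter, mem_inter] at hv
    obtain ⟨⟨hvL, hv1⟩, hv2⟩ := hv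
    rw [Tri.Vin, mem_filter] at hv1 hv2
    have hv1 := hv1.2
    have hv2 := hv2.2
    have vin : ∀ {Y : Finset F}, (∀ f, v ∈ T.tri f → f ∈ Y) → v ∈ T.Vin Y := by
      intro Y h
      rw [Tri.Vin, mem_filter]
      exact ⟨mem_univ _, h⟩
    have vin' : ∀ {Y : Finset F}, v ∈ T.Vin Y → ∀ f, v ∈ T.tri f → f ∈ Y := by
      intro Y h
      rw [Tri.Vin, mem_filter] at h
      exact h.2
    rcases (pTri V F T hT).1 P v with h | h | h
    · refine mem_union_left _ (mem_union_left _ (mem_union_left _ (mem_union_left _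
        (mem_inter.2 ⟨hvL, vin fun f hf => mem_sdiff.2 ⟨vin' h f hf, ?_⟩⟩))))
      exact mem_compl.1 (hv2 f hf)
    · exact mem_union_left _ (mem_union_left _ (mem_union_left _ (mem_union_right _ h)))
    rcases (pTri V F T hT).1 S v with h' | h' | h'
    · refine mem_union_left _ (mem_union_left _ (mem_union_right _ ?_))
      have hvZ : ∀ f, v ∈ T.tri f → f ∈ Z1 ∆ Z2 ∆ Z3 := by
        intro f hf
        rw [← hSP]
        exact mem_sdiff.2 ⟨vin' h' f hf, mem_compl.1 (vin' h f hf)⟩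
      rcases (pTri V F T hT).1 Z1 v with g | g | g
      · exact mem_union_left _ (mem_union_left _ (mem_union_left _ g))
      · exact mem_union_left _ (mem_union_left _ (mem_union_right _ g))
      rcases (pTri V F T hT).1 Z2 v with g' | g' | g'
      · exact mem_union_left _ (mem_union_right _ (mem_union_left _ g'))
      · exact mem_union_left _ (mem_union_right _ (mem_union_right _ g'))
      apply mem_union_right
      apply vin
      intro f hf
      have n1 : f ∉ Z1 := mem_compl.1 (vin' g f hf)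
      have n2 : f ∉ Z2 := mem_compl.1 (vin' g' f hf)
      have h1 := hvZ f hf
      simp only [mem_symmDiff, n1, n2] at h1
      simpa using h1
    · exact mem_union_left _ (mem_union_right _ h')
    · refine mem_union_right _ (mem_inter.2 ⟨hvL, vin fun f hf => mem_sdiff.2 ⟨hv1 f hf, ?_⟩⟩)
      exact mem_compl.1 (vin' h' f hf)
  obtain ⟨-, -, -, -, -, fP1, -⟩ := pEnumFacts V F T hT P l c iP.1
  obtain ⟨-, -, -, -, -, fS1, -⟩ := pEnumFacts V F T hT S l c' iS.1
  have hV1 : (T.Vbd Z1).card ≤ 2 * p := by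
    refine ((hMass V F T hT).1 Z1).trans ?_
    rw [Tri.len, bZ1]
    have := card_sd_le (arcE c' 0 p) (arcE c 0 p)
    have e1 := (fP1 0 p (by omega) (by omega)).1
    have e2 := (fS1 0 p (by omega) (by omega)).1
    omega
  have hV2 : (T.Vbd Z2).card ≤ 2 * (q - p) := by
    refine ((hMass V F T hT).1 Z2).trans ?_
    rw [Tri.len, bZ2]
    have := card_sd_le (arcE c' p q) (arcE c p q)
    have e1 := (fP1 p q (by omega) (by omega)).1
    have e2 := (fS1 p q (by omega) (by omega)).1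
    omega
  have hVP := (hMass V F T hT).1 P
  have hVS := (hMass V F T hT).1 S
  rw [hTr.lenP] at hVP
  rw [hTr.lenS] at hVS
  have hc := card_le_card hincl
  have u1 := card_union_le ((L ∩ T.Vin (P \ Xa)) ∪ T.Vbd P ∪
      ((T.Vin Z1 ∪ T.Vbd Z1) ∪ (T.Vin Z2 ∪ T.Vbd Z2) ∪ T.Vin Z3) ∪ T.Vbd S)
      (L ∩ T.Vin (T₁ \ S))
  have u2 := card_union_le ((L ∩ T.Vin (P \ Xa)) ∪ T.Vbd P ∪
      ((T.Vin Z1 ∪ T.Vbd Z1) ∪ (T.Vin Z2 ∪ T.Vbd Z2) ∪ T.Vin Z3)) (T.Vbd S)
  have u3 := card_union_le ((L ∩ T.Vin (P \ Xa)) ∪ T.Vbd P)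
      ((T.Vin Z1 ∪ T.Vbd Z1) ∪ (T.Vin Z2 ∪ T.Vbd Z2) ∪ T.Vin Z3)
  have u4 := card_union_le (L ∩ T.Vin (P \ Xa)) (T.Vbd P)
  have u5 := card_union_le ((T.Vin Z1 ∪ T.Vbd Z1) ∪ (T.Vin Z2 ∪ T.Vbd Z2)) (T.Vin Z3)
  have u6 := card_union_le (T.Vin Z1 ∪ T.Vbd Z1) (T.Vin Z2 ∪ T.Vbd Z2)
  have u7 := card_union_le (T.Vin Z1) (T.Vbd Z1)
  have u8 := card_union_le (T.Vin Z2) (T.Vbd Z2)
  have hmP := hTr.massP
  have hmS := hTr.massS
  rw [Tri.m] at hmP hmS
  omega

end Pool.Agent.Helper1.FF2
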