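import Pool.Agent.Helper1.FF2.Goals2

/-!
# Assembly of the sector interface
-/

namespace Pool.Agent.Helper1.FF2

open Finset
open Pool.Agent.Helper34.FF hiding StmtG
open scoped symmDiff Classical

section

variable {V F : Type} [Fintype V] [Fintype F] {T : Tri V F}

theorem mem_wE {k : ℕ} {a : ℕ → V} {e : Sym2 V} :
    e ∈ wE k a ↔ ∃ i < k, e = s(a i, a (i + 1)) := by
  simp only [wE, mem_image, mem_range]
  constructor
  · rintro ⟨i, hi, rfl⟩; exact ⟨i, hi, rfl⟩
  · rintro ⟨i, hi, rfl⟩; exact ⟨i, hi, rfl⟩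

theorem wE_edge {H : SimpleGraph V} {k : ℕ} {a : ℕ → V} {x y : V} (h : IsW H k a x y)
    {e : Sym2 V} (he : e ∈ wE k a) : e ∈ H.edgeSet := by
  obtain ⟨i, hi, rfl⟩ := mem_wE.1 he
  exact h.2.2 i hi

theorem isW_dist_le {H : SimpleGraph V} (hc : H.Connected) {k : ℕ} {a : ℕ → V} {x y : V}
    (h : IsW H k a x y) : ∀ i j, i ≤ j → j ≤ k → H.dist (a i) (a j) ≤ j - i := by
  intro i j hij
  induction j, hij using Nat.le_induction with
  | base => intro _; simp
  | succ j hij ih =>
    intro hj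
    have h1 := ih (by omega)
    have h2 : H.dist (a j) (a (j + 1)) ≤ 1 := by
      have := SimpleGraph.dist_le (SimpleGraph.Walk.cons (h.2.2 j (by omega)) SimpleGraph.Walk.nil)
      simpa using this
    have h3 := hc.dist_triangle (u := a i) (v := a j) (w := a (j + 1))
    omega

theorem avoid_le (Ds : Finset (Finset F)) : T.avoid Ds ≤ T.G := by
  intro v w h
  exact h.1

theorem avoid_not_inn {Ds : Finset (Finset F)} {X : Finset F} (hX : X ∈ Ds) {e : Sym2 V}
    (he : e ∈ T.inn X) : e ∉ (T.avoid Ds).edgeSet := by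
  induction e using Sym2.ind with
  | _ a b =>
    intro h
    exact h.2 X hX he

theorem bdry_not_inn (hAlg : Pool.Agent.Helper34.FF.StmtAlg) {E X : Finset F} (h : Disjoint X E)
    {e : Sym2 V} (he : e ∈ T.bdry E) : e ∉ T.inn X := by
  intro hi
  simp only [Tri.bdry, Tri.inn, mem_filter, mem_univ, true_and] at he hi
  obtain ⟨heG, h1⟩ := he
  have h2 := hi.2
  have h3 := (hAlg V F T).2.2.2.1 e heG
  have h4 : Disjoint (X.filter fun f => T.on e f) (E.filter fun f => T.on e f) :=
    Finset.disjoint_filter_filter h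
  have h5 := Finset.card_union_of_disjoint h4
  have h6 : ((X.filter fun f => T.on e f) ∪ (E.filter fun f => T.on e f)) ⊆
      (univ.filter fun f => T.on e f) := by
    intro f hf
    simp only [mem_union, mem_filter, mem_univ, true_and] at hf ⊢
    tauto
  have h7 := Finset.card_le_card h6
  omega

theorem face_of_bdry {E : Finset F} {e : Sym2 V} (he : e ∈ T.bdry E) {v : V} (hv : v ∈ e) :
    ∃ f ∈ E, v ∈ T.tri f := by
  simp only [Tri.bdry, mem_filter, mem_univ, true_and] at he
  have h1 : (E.filter fun f => T.on e f).Nonempty := by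
    rw [← Finset.card_pos]; omega
  obtain ⟨f, hf⟩ := h1
  rw [mem_filter] at hf
  exact ⟨f, hf.1, hf.2 v hv⟩

end

theorem pf_StmtSectors (hTree : StmtTree) (hSec : StmtSec) (hAl : StmtSecAlpha) (hRun : StmtRun)
    (hReach : StmtReach) (hG : StmtG) (hBr : StmtBranch) (hRest : StmtRest)
    (hAlg : Pool.Agent.Helper34.FF.StmtAlg) (hNo : StmtNoCut) (hTri : StmtTri)
    (hEF : StmtEnumFacts) : StmtSectors := by
  intro V F _ _ T hT e l E c Ds u hEnum hObst hDisj hu hDs hBad he
  obtain ⟨P, hP⟩ := hTree V (T.avoid (insert E Ds)) u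
  obtain ⟨hR1, hR2, hR3, hR4, hR5⟩ := hReach V F T hT E l c Ds u hEnum hObst hDisj hu hDs
  obtain ⟨hT1, hT2, hT3, hT4, hT5⟩ := hTri V F T hT
  obtain ⟨hBondE, hlenE, -, hVbd, -, -, -, -, -, -⟩ := hEF V F T hT E l c hEnum
  have huE : u ∉ T.Vbd E := by
    rw [← hT3]
    exact (hT2 _ _ hu).1
  have hΩ : T.avoid (insert E Ds) ≤ T.G := avoid_le _
  have hno : ∀ e ∈ T.inn E, e ∉ (T.avoid (insert E Ds)).edgeSet :=
    fun e he => avoid_not_inn (mem_insert_self _ _) he
  obtain ⟨U, hU1, hU2, hU3, hU4, hU5, hU6⟩ := hSec V F T hT E l c _ u P hEnum hΩ hno hP hR1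
  obtain ⟨α, hα1, hα2, hα3, hα4⟩ := hAl V F T hT E l c _ u P U hEnum hP hR1 huE hU1 hU2
  have hG' := hG V F T hT e l E c u (fun i => (T.avoid (insert E Ds)).dist u (c i)) hEnum hu
    (fun i => by show (T.avoid (insert E Ds)).dist u (c (i + l)) = _; rw [hEnum.per])
    hR2 hR3 hR4 hBad he
  have hl : 1 ≤ l := by have := hEnum.three; omega
  refine ⟨U, α, hU1, hα1, hU3, hU4, hU5, hU6, ?_, hα3, ?_, ?_, ?_⟩
  · intro i
    have h1 := hα2 i
    have h2 := hG' i
    omega
  · intro X hX i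
    refine hNo V F T X (U i) (hObst.1 X hX).1.1 ?_
    intro e' he'
    rw [hU2, Finset.mem_symmDiff] at he'
    have htree : ∀ x, (T.avoid (insert E Ds)).Reachable u x →
        ∀ e' ∈ tE (T.avoid (insert E Ds)) u P x, e' ∉ T.inn X := by
      intro x hx e'' he'' hi
      exact avoid_not_inn (mem_insert_of_mem hX) hi (wE_edge (hP.walk x hx) he'')
    rcases he' with ⟨h1, _⟩ | ⟨h1, _⟩
    · rw [mem_singleton] at h1
      subst h1
      exact bdry_not_inn hAlg (hDisj X hX) ((hEnum.bd _).2 ⟨i, rfl⟩)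
    · rw [Finset.mem_symmDiff] at h1
      rcases h1 with ⟨h1, _⟩ | ⟨h1, _⟩
      · exact htree _ (hR1 i) _ h1
      · exact htree _ (hR1 (i + 1)) _ h1
  · refine (hRest V F T hT ((univ : Finset V).card + 1) l E u U α hl hu hU1 hα1 hU3 hU4 hU5 hα3
      ?_).1
    intro i j _ _ _ _
    exact Nat.lt_succ_of_le (Finset.card_le_card (Finset.subset_univ _))
  · intro hIso
    refine (hRest V F T hT e l E u U α hl hu hU1 hα1 hU3 hU4 hU5 hα3 ?_).2
    intro i j hij hjl hk huY
    obtain ⟨a, ha1, ha2, ha3, ha4, ha5, ha6⟩ := hRun V F T hT E l c _ u P U hEnum hΩ hP hR1 huE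
      hU2 hU3 hU4 i j hij hjl (fun k hk1 hk2 => (hα4 k).1 (hk k hk1 hk2))
    have hout : ∀ k, ∀ X ∈ insert E Ds, c k ∉ T.Vin X := by
      intro k X hX hck
      rw [mem_insert] at hX
      have hckE : c k ∈ T.Vbd E := (hVbd _).2 ⟨k, rfl⟩
      rcases hX with rfl | hX
      · exact (hT2 _ _ hck).1 hckE
      · obtain ⟨f, hf, hvf⟩ := (hT4 E _ hckE).1
        have hfX : f ∈ X := by
          simp only [Tri.Vin, mem_filter, mem_univ, true_and] at hck
          exact hck f hvf
        exact (Finset.disjoint_left.1 (hDisj X hX)) hfX hf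
    have hdist : ∀ k, (T.avoid (insert E Ds)).dist u (c k) = T.G.dist u (c k) :=
      fun k => (hR5 hIso (c k) (hout k)).2
    have hconn := hT.conn
    have hpath : ∀ k, ∀ t ≤ T.G.dist u (c k), T.G.dist u (P (c k) t) = t := by
      intro k t ht
      have hw := hP.walk (c k) (hR1 k)
      rw [hdist k] at hw
      have hwG : IsW T.G (T.G.dist u (c k)) (P (c k)) u (c k) :=
        ⟨hw.1, hw.2.1, fun i hi => hΩ (hw.2.2 i hi)⟩
      have h1 := isW_dist_le hconn hwG 0 t (Nat.zero_le _) ht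
      have h2 := isW_dist_le hconn hwG t _ ht le_rfl
      rw [hwG.1] at h1
      rw [hwG.2.1] at h2
      have h3 := hconn.dist_triangle (u := u) (v := P (c k) t) (w := c k)
      omega
    rw [hdist i] at ha2 ha5
    rw [hdist j] at ha3 ha5
    refine hBr V F T hT e l E _ c u i j a (fun t => P (c i) (a + t)) (fun t => P (c j) (a + t))
      hIso hu huY hBad hij hjl ha1 ha2 ha3 ?_ ?_ ?_ ?_ ?_ ha6 ha5
    · show P (c i) (a + 0) = P (c j) (a + 0)
      simpa using ha4
    · show P (c i) (a + (T.G.dist u (c i) - a)) = c i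
      have hw := hP.walk (c i) (hR1 i)
      rw [hdist i] at hw
      rw [Nat.add_sub_cancel' ha2]
      exact hw.2.1
    · show P (c j) (a + (T.G.dist u (c j) - a)) = c j
      have hw := hP.walk (c j) (hR1 j)
      rw [hdist j] at hw
      rw [Nat.add_sub_cancel' ha3]
      exact hw.2.1
    · intro t ht
      exact hpath i (a + t) (by omega)
    · intro t ht
      exact hpath j (a + t) (by omega)

end Pool.Agent.Helper1.FF2
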