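import Pool.Agent.Helper1.FF2.StmtSectors

/-!
# Corollaries of the sector interface: THIN, SHRINK, CUT
-/

namespace Pool.Agent.Helper1.FF2

open Finset
open Pool.Agent.Helper34.FF hiding StmtG
open scoped symmDiff Classical

section

variable {V F : Type} [Fintype V] [Fintype F] {T : Tri V F}

theorem mem_Vcl {S : Finset F} {v : V} : v ∈ Vcl T S ↔ ∃ f ∈ S, v ∈ T.tri f := by
  simp [Vcl]

theorem mem_Vin {S : Finset F} {v : V} : v ∈ T.Vin S ↔ ∀ f, v ∈ T.tri f → f ∈ S := by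
  simp [Tri.Vin]

theorem Vin_sub_Vcl (hT : T.Sphere) (S : Finset F) : T.Vin S ⊆ Vcl T S := by
  intro v hv
  obtain ⟨f, hf⟩ := hT.face v
  exact mem_Vcl.2 ⟨f, mem_Vin.1 hv f hf, hf⟩

theorem mass_le (hT : T.Sphere) (hTri : StmtTri) (hMass : Pool.Agent.Helper34.FF.StmtMass)
    (L : Finset V) (R X : Finset F) (I : Finset ℤ) (U : ℤ → Finset F)
    (h : ∀ f ∈ X, f ∈ R ∨ ∃ k ∈ I, f ∈ U k) :
    T.m L X ≤ (Vcl T R).card + ∑ k ∈ I, (T.m L (U k) + T.len (U k)) := by
  have hsub : L ∩ T.Vin X ⊆ Vcl T R ∪ I.biUnion (fun k => (L ∩ T.Vin (U k)) ∪ T.Vbd (U k)) := by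
    intro v hv
    rw [mem_inter] at hv
    obtain ⟨f, hf⟩ := hT.face v
    rcases h f (mem_Vin.1 hv.2 f hf) with h1 | ⟨k, hk, h1⟩
    · exact mem_union_left _ (mem_Vcl.2 ⟨f, h1, hf⟩)
    · refine mem_union_right _ (mem_biUnion.2 ⟨k, hk, ?_⟩)
      rcases (hTri V F T hT).1 (U k) v with h2 | h2 | h2
      · exact mem_union_left _ (mem_inter.2 ⟨hv.1, h2⟩)
      · exact mem_union_right _ h2
      · exact absurd h1 (mem_compl.1 (mem_Vin.1 h2 f hf))
  refine (Finset.card_le_card hsub).trans ((Finset.card_union_le _ _).trans ?_)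
  refine Nat.add_le_add_left (Finset.card_biUnion_le.trans (Finset.sum_le_sum ?_)) _
  intro k _
  exact (Finset.card_union_le _ _).trans (Nat.add_le_add_left ((hMass V F T hT).1 (U k)) _)

theorem rep_mod {α : Type*} {l : ℕ} (hl : 1 ≤ l) {U : ℤ → α} (hU : ∀ i, U (i + l) = U i) (i : ℤ) :
    i % l ∈ Ico (0 : ℤ) l ∧ U (i % l) = U i := by
  have hl' : (0 : ℤ) < l := by exact_mod_cast hl
  refine ⟨mem_Ico.2 ⟨Int.emod_nonneg _ hl'.ne', Int.emod_lt_of_pos _ hl'⟩, ?_⟩
  have hper : Function.Periodic U (l : ℤ) := hU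
  have h1 := hper.int_mul (-(i / l)) i
  rw [← h1]
  congr 1
  have := Int.emod_add_mul_ediv i l
  simp only [Int.cast_id]
  linarith [mul_comm (l : ℤ) (i / l)]

end

theorem pf_StmtThin (hS : StmtSectors) (hD : StmtFaceDeg) (hAlg : Pool.Agent.Helper34.FF.StmtAlg)
    (hTri : StmtTri) (hMass : Pool.Agent.Helper34.FF.StmtMass) : StmtThin := by
  intro V F _ _ T hT L e l κ E D c u hBS hu hIso hDb hDIN hdisj huE huD he hcut hκ
  obtain ⟨hT1, hT2, hT3, hT4, hT5⟩ := hTri V F T hT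
  have hl : 1 ≤ l := by have := hIso.1.three; omega
  have hObst : T.Obst {D} := by
    refine ⟨fun X hX => ?_, fun X hX Y hY hXY => ?_⟩
    · rw [mem_singleton] at hX; subst hX; exact ⟨hDb, hDIN⟩
    · rw [mem_singleton] at hX hY; subst hX; subst hY; exact absurd rfl hXY
  have huD' : u ∉ T.Vin D := by
    have := (hT2 _ _ huD).2
    rwa [compl_compl] at this
  obtain ⟨U, α, hU1, hα1, hU3, hU4, hU5, hU6, hlen, hα0, hobs, hcnt, hmass⟩ :=
    hS V F T hT e l E c {D} u hIso.1 hObst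
      (fun X hX => by rw [mem_singleton] at hX; subst hX; exact hdisj.symm) huE
      (fun X hX => by rw [mem_singleton] at hX; subst hX; exact huD')
      (hBS u hu).1 (he.trans (Finset.card_le_card (Vin_sub_Vcl hT E)))
  rw [hD V F T u] at hcnt
  have hdeg := (hBS u hu).2
  obtain ⟨g, hg⟩ := hDb.1.1
  obtain ⟨i₀, hi₀⟩ := hU5 g (fun hgE => Finset.disjoint_left.1 hdisj hgE hg)
  have hDU : D ⊆ U i₀ := by
    rcases hobs D (mem_singleton_self D) i₀ with h | h
    · exact h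
    · exact absurd hi₀ (Finset.disjoint_left.1 h hg)
  have hbd : T.bdry (U i₀)ᶜ = T.bdry (U i₀) := (hAlg V F T).2.1 _
  have hEY : E ⊆ (U i₀)ᶜ := by
    intro x hx
    rw [mem_compl]
    exact fun hx' => Finset.disjoint_left.1 (hU3 i₀) hx' hx
  have hYD : Disjoint (U i₀)ᶜ D := by
    rw [Finset.disjoint_left]
    intro x hx hxD
    exact (mem_compl.1 hx) (hDU hxD)
  have hlenY : T.len (U i₀)ᶜ = T.len (U i₀) := by
    show (T.bdry _).card = (T.bdry _).card
    rw [hbd]
  have h1 := hcut _ hEY hYD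
  have h2 := hlen i₀
  have hα : α i₀ = 0 := by omega
  have huU : u ∈ T.Vbd (U i₀) := (hα0 i₀).1 hα
  have hBond : ∀ k, α k = 0 → T.Bond (U k) := by
    intro k hk
    rcases hU6 k with h | h
    · exfalso
      have := (hα0 k).1 hk
      obtain ⟨f, hf, _⟩ := (hT4 _ _ this).1
      rw [h] at hf
      simp at hf
    · exact h
  refine ⟨(U i₀)ᶜ, hEY, hYD, ⟨(hBond i₀ hα).2, by rw [compl_compl]; exact (hBond i₀ hα).1⟩,
    by omega, by rw [hT3]; exact huU, ?_⟩
  -- the mass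
  set R := ((Ico (0 : ℤ) l).filter fun i => α i ≠ 0).biUnion U with hR
  set I := ((Ico (0 : ℤ) l).filter fun i => α i = 0).filter (fun k => U k ≠ U i₀) with hI
  have hcov : ∀ f ∈ (U i₀)ᶜ \ E, f ∈ R ∨ ∃ k ∈ I, f ∈ U k := by
    intro f hf
    rw [mem_sdiff, mem_compl] at hf
    obtain ⟨i, hi⟩ := hU5 f hf.2
    obtain ⟨hk1, hk2⟩ := rep_mod hl hU1 i
    obtain ⟨_, hk3⟩ := rep_mod hl hα1 i
    by_cases hαi : α i = 0
    · right
      refine ⟨i % l, mem_filter.2 ⟨mem_filter.2 ⟨hk1, by rw [hk3]; exact hαi⟩, ?_⟩, by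
        rw [hk2]; exact hi⟩
      rw [hk2]
      intro hcon
      rw [hcon] at hi
      exact hf.1 hi
    · left
      exact mem_biUnion.2 ⟨i % l, mem_filter.2 ⟨hk1, by rw [hk3]; exact hαi⟩, by
        rw [hk2]; exact hi⟩
  have hm := mass_le hT hTri hMass L R ((U i₀)ᶜ \ E) I U hcov
  have hR' : (Vcl T R).card ≤ 11 * e := by
    refine ((hmass hIso).1 ⟨i₀, hα⟩).trans ?_
    rw [hD V F T u]
    exact Nat.mul_le_mul_right e hdeg
  have hI' : ∑ k ∈ I, (T.m L (U k) + T.len (U k)) ≤ 11 * (κ + l) := by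
    have h3 : ∀ k ∈ I, T.m L (U k) + T.len (U k) ≤ κ + l := by
      intro k hk
      rw [hI, mem_filter, mem_filter] at hk
      have hdk : Disjoint (U k) (U i₀) := by
        apply hU4
        intro hdvd
        apply hk.2
        obtain ⟨m, hm'⟩ := hdvd
        have hper : Function.Periodic U (l : ℤ) := hU1
        have h4 := hper.int_mul m i₀
        rw [← h4]
        congr 1
        simp only [Int.cast_id]
        linarith [mul_comm (l : ℤ) m]
      have h5 := hlen k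
      have h6 := hκ (U k) (hBond k hk.1.2) (hU3 k) (hdk.mono_right hDU) ((hα0 k).1 hk.1.2)
        (by omega)
      omega
    refine (Finset.sum_le_card_nsmul _ _ _ h3).trans ?_
    rw [smul_eq_mul]
    refine Nat.mul_le_mul_right _ ?_
    refine (Finset.card_filter_le _ _).trans (hcnt.trans hdeg)
  have : 11 * (e + κ + l) = 11 * e + 11 * (κ + l) := by ring
  omega

theorem pf_StmtShrink (hS : StmtSectors) (hD : StmtFaceDeg)
    (hTri : StmtTri) (hMass : Pool.Agent.Helper34.FF.StmtMass) (hEF : StmtEnumFacts) :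
    StmtShrink := by
  intro V F _ _ T hT L e l Y c u hBS hu hIso huY he
  obtain ⟨hT1, hT2, hT3, hT4, hT5⟩ := hTri V F T hT
  have hl : 1 ≤ l := by have := hIso.1.three; omega
  have hObst : T.Obst ∅ := ⟨fun X hX => by simp at hX, fun X hX => by simp at hX⟩
  obtain ⟨U, α, hU1, hα1, hU3, hU4, hU5, hU6, hlen, hα0, hobs, hcnt, hmass⟩ :=
    hS V F T hT e l Yᶜ c ∅ u hIso.1 hObst (fun X hX => by simp at hX)
      (by rw [compl_compl]; exact huY) (fun X hX => by simp at hX)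
      (hBS u hu).1 (he.trans (Finset.card_le_card (Vin_sub_Vcl hT Yᶜ)))
  rw [hD V F T u] at hcnt
  have hdeg := (hBS u hu).2
  have hsub : ∀ k, U k ⊆ Y := by
    intro k x hx
    by_contra hcon
    exact Finset.disjoint_left.1 (hU3 k) hx (mem_compl.2 hcon)
  have hlenY : T.len Y = l := by
    have h1 := (hEF V F T hT Yᶜ l c hIso.1).2.1
    have h2 := (hMass V F T hT).2 L
    have h3 := (h2.2.2.2.2.2 Y Y).2.2.2
    omega
  by_cases hex : ∃ i, α i = 0
  · set R := ((Ico (0 : ℤ) l).filter fun i => α i ≠ 0).biUnion U with hR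
    set I := ((Ico (0 : ℤ) l).filter fun i => α i = 0) with hI
    have hcov : ∀ f ∈ Y, f ∈ R ∨ ∃ k ∈ I, f ∈ U k := by
      intro f hf
      obtain ⟨i, hi⟩ := hU5 f (by simpa using hf)
      obtain ⟨hk1, hk2⟩ := rep_mod hl hU1 i
      obtain ⟨_, hk3⟩ := rep_mod hl hα1 i
      by_cases hαi : α i = 0
      · right
        exact ⟨i % l, mem_filter.2 ⟨hk1, by rw [hk3]; exact hαi⟩, by rw [hk2]; exact hi⟩
      · left
        exact mem_biUnion.2 ⟨i % l, mem_filter.2 ⟨hk1, by rw [hk3]; exact hαi⟩, by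
          rw [hk2]; exact hi⟩
    have hm := mass_le hT hTri hMass L R Y I U hcov
    have hR' : (Vcl T R).card ≤ 11 * e := by
      refine ((hmass hIso).1 hex).trans ?_
      rw [hD V F T u]
      exact Nat.mul_le_mul_right e hdeg
    obtain ⟨i₁, hi₁⟩ := hex
    have hIne : I.Nonempty := by
      obtain ⟨hk1, hk2⟩ := rep_mod hl hα1 i₁
      exact ⟨i₁ % l, mem_filter.2 ⟨hk1, by rw [hk2]; exact hi₁⟩⟩
    obtain ⟨k₀, hk₀, hmax⟩ := Finset.exists_max_image I (fun k => T.m L (U k)) hIne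
    have hk₀α : α k₀ = 0 := by rw [hI, mem_filter] at hk₀; exact hk₀.2
    have hBond : T.Bond (U k₀) := by
      rcases hU6 k₀ with h | h
      · exfalso
        have := (hα0 k₀).1 hk₀α
        obtain ⟨f, hf, _⟩ := (hT4 _ _ this).1
        rw [h] at hf
        simp at hf
      · exact h
    refine ⟨U k₀, hsub k₀, ?_, hBond, by have := hlen k₀; omega, ?_⟩
    · intro hcon
      have h1 := (hα0 k₀).1 hk₀α
      rw [hcon] at h1
      exact (hT2 _ _ huY).1 h1
    · have h3 : ∀ k ∈ I, T.m L (U k) + T.len (U k) ≤ T.m L (U k₀) + l := by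
        intro k hk
        have := hmax k hk
        have := hlen k
        omega
      have hI' : ∑ k ∈ I, (T.m L (U k) + T.len (U k)) ≤ 11 * (T.m L (U k₀) + l) := by
        refine (Finset.sum_le_card_nsmul _ _ _ h3).trans ?_
        rw [smul_eq_mul]
        exact Nat.mul_le_mul_right _ (hcnt.trans hdeg)
      have : 11 * (T.m L (U k₀) + e + l) = 11 * e + 11 * (T.m L (U k₀) + l) := by ring
      omega
  · push Not at hex
    obtain ⟨i₀, hi₀, hi₀'⟩ := (hmass hIso).2 hex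
    obtain ⟨f, hf⟩ := hT.face u
    have hfU : f ∈ U i₀ := mem_Vin.1 hi₀ f hf
    have hBond : T.Bond (U i₀) := by
      rcases hU6 i₀ with h | h
      · rw [h] at hfU; simp at hfU
      · exact h
    have hα1' : 1 ≤ α i₀ := Nat.one_le_iff_ne_zero.2 (hex i₀)
    have h1 := hlen i₀
    refine ⟨U i₀, hsub i₀, ?_, hBond, by omega, ?_⟩
    · intro hcon
      rw [hcon] at h1
      omega
    · have hm := mass_le hT hTri hMass L (Yᶜᶜ \ U i₀) Y {i₀} U (by
        intro f' hf'
        by_cases h2 : f' ∈ U i₀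
        · exact Or.inr ⟨i₀, mem_singleton_self _, h2⟩
        · exact Or.inl (by rw [compl_compl]; exact mem_sdiff.2 ⟨hf', h2⟩))
      rw [Finset.sum_singleton] at hm
      have : 11 * (T.m L (U i₀) + e + l) = (T.m L (U i₀) + e + l) +
        10 * (T.m L (U i₀) + e + l) := by ring
      omega

/-- helper34's StmtCut -/
theorem pf_StmtCut (hS : StmtSectors) (hAlg : Pool.Agent.Helper34.FF.StmtAlg)
    (hTri : StmtTri) (hEnum : StmtEnum) : Pool.Agent.Helper34.FF.StmtCut := by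
  intro V F _ _ T hT E D u e hEb hDb hDIN hdisj huE huD hBad he hcut
  obtain ⟨hT1, hT2, hT3, hT4, hT5⟩ := hTri V F T hT
  obtain ⟨c, hc⟩ := hEnum V F T hT E hEb
  have hObst : T.Obst {D} := by
    refine ⟨fun X hX => ?_, fun X hX Y hY hXY => ?_⟩
    · rw [mem_singleton] at hX; subst hX; exact ⟨hDb, hDIN⟩
    · rw [mem_singleton] at hX hY; subst hX; subst hY; exact absurd rfl hXY
  have huD' : u ∉ T.Vin D := by
    have := (hT2 _ _ huD).2
    rwa [compl_compl] at this
  obtain ⟨U, α, hU1, hα1, hU3, hU4, hU5, hU6, hlen, hα0, hobs, hcnt, hmass⟩ :=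
    hS V F T hT e (T.len E) E c {D} u hc hObst
      (fun X hX => by rw [mem_singleton] at hX; subst hX; exact hdisj.symm) huE
      (fun X hX => by rw [mem_singleton] at hX; subst hX; exact huD')
      hBad (he.trans (Finset.card_le_card (Vin_sub_Vcl hT E)))
  obtain ⟨g, hg⟩ := hDb.1.1
  obtain ⟨i₀, hi₀⟩ := hU5 g (fun hgE => Finset.disjoint_left.1 hdisj hgE hg)
  have hDU : D ⊆ U i₀ := by
    rcases hobs D (mem_singleton_self D) i₀ with h | h
    · exact h
    · exact absurd hi₀ (Finset.disjoint_left.1 h hg)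
  have hEY : E ⊆ (U i₀)ᶜ := by
    intro x hx
    rw [mem_compl]
    exact fun hx' => Finset.disjoint_left.1 (hU3 i₀) hx' hx
  have hYD : Disjoint (U i₀)ᶜ D := by
    rw [Finset.disjoint_left]
    intro x hx hxD
    exact (mem_compl.1 hx) (hDU hxD)
  have hlenY : T.len (U i₀)ᶜ = T.len (U i₀) := by
    show (T.bdry _).card = (T.bdry _).card
    rw [(hAlg V F T).2.1]
  have h1 := hcut _ hEY hYD
  have h2 := hlen i₀
  have hα : α i₀ = 0 := by omega
  exact ⟨(U i₀)ᶜ, hEY, hYD, by omega, by rw [hT3]; exact (hα0 i₀).1 hα⟩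

end Pool.Agent.Helper1.FF2
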